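import Pool.Agent.Work.MP_78fef3_co.R.LowerR

-- part LUn
section
namespace Pool.Agent.Work.MP_78fef3_co.L

open Finset Real

theorem lu_card {l : ℕ} (nn : Fin l → ℕ) (B' : Finset (BB nn)) :
    ∑ j, (((univ.filter fun y : Fin (nn j) => (⟨j, y⟩ : BB nn) ∈ B').card : ℕ) : ℝ) = B'.card := by
  have h : (B'.card : ℝ) = ∑ b : BB nn, if b ∈ B' then (1 : ℝ) else 0 := by
    rw [sum_ite_mem, univ_inter, sum_const, nsmul_eq_mul, mul_one]
  rw [h, Fintype.sum_sigma]
  refine sum_congr rfl fun j _ => ?_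
  rw [sum_boole]

theorem lu_mgf {a l : ℕ} (nn : Fin l → ℕ) (hnn : ∀ j, 0 < nn j) (A' : Finset (Fin a))
    (B' : Finset (BB nn)) {t c : ℝ} (ht : 0 ≤ t) (hc0 : 0 ≤ c)
    (hc : ∀ b ∈ B', (A'.card : ℝ) ≤ c * nn b.1) :
    ∑ f : Om a nn,
      exp (t * (univ.filter fun p : Fin a × Fin l => p.1 ∈ A' ∧ nb f p ∈ B').card) ≤
      Fintype.card (Om a nn) * exp ((exp t - 1) * (c * B'.card)) := by
  have he : 0 ≤ exp t - 1 := by linarith [add_one_le_exp t]
  set cc : Fin l → ℝ := fun j =>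
    (((univ.filter fun y : Fin (nn j) => (⟨j, y⟩ : BB nn) ∈ B').card : ℕ) : ℝ) with hcc
  have hcc0 : ∀ j, 0 ≤ cc j := fun j => Nat.cast_nonneg _
  have h1 : ∀ f : Om a nn,
      exp (t * (univ.filter fun p : Fin a × Fin l => p.1 ∈ A' ∧ nb f p ∈ B').card) =
      ∏ p : Fin a × Fin l, if p.1 ∈ A' ∧ (⟨p.2, f p⟩ : BB nn) ∈ B' then exp t else 1 := by
    intro f
    rw [← prod_filter, prod_const, mul_comm, exp_nat_mul]
    rfl
  have h2 : ∑ f : Om a nn, ∏ p : Fin a × Fin l,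
      (if p.1 ∈ A' ∧ (⟨p.2, f p⟩ : BB nn) ∈ B' then exp t else 1) =
      ∏ p : Fin a × Fin l, ∑ y : Fin (nn p.2),
        (if p.1 ∈ A' ∧ (⟨p.2, y⟩ : BB nn) ∈ B' then exp t else 1) := by
    rw [prod_univ_sum, Fintype.piFinset_univ]
  have h3 : ∀ p : Fin a × Fin l, ∑ y : Fin (nn p.2),
      (if p.1 ∈ A' ∧ (⟨p.2, y⟩ : BB nn) ∈ B' then exp t else 1) ≤
      (nn p.2 : ℝ) * exp ((exp t - 1) * (if p.1 ∈ A' then cc p.2 / nn p.2 else 0)) := by
    intro p
    have hn : (0 : ℝ) < nn p.2 := by exact_mod_cast hnn p.2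
    by_cases hp : p.1 ∈ A'
    · simp only [hp, true_and, if_true]
      have h4 : ∀ y : Fin (nn p.2), (if (⟨p.2, y⟩ : BB nn) ∈ B' then exp t else 1) =
          1 + (exp t - 1) * (if (⟨p.2, y⟩ : BB nn) ∈ B' then (1 : ℝ) else 0) := by
        intro y
        split_ifs <;> ring
      simp only [h4]
      rw [sum_add_distrib, ← mul_sum, sum_boole, sum_const, card_univ, Fintype.card_fin,
        nsmul_eq_mul, mul_one]
      have h5 := add_one_le_exp ((exp t - 1) * (cc p.2 / nn p.2))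
      have h6 : (nn p.2 : ℝ) * ((exp t - 1) * (cc p.2 / nn p.2) + 1) =
          nn p.2 + (exp t - 1) * cc p.2 := by
        field_simp
        ring
      calc (nn p.2 : ℝ) + (exp t - 1) * cc p.2
          = nn p.2 * ((exp t - 1) * (cc p.2 / nn p.2) + 1) := h6.symm
        _ ≤ _ := mul_le_mul_of_nonneg_left h5 hn.le
    · simp [hp]
  have h7 : ∑ p : Fin a × Fin l, (if p.1 ∈ A' then cc p.2 / nn p.2 else 0) ≤ c * B'.card := by
    rw [Fintype.sum_prod_type_right, ← lu_card nn B', mul_sum]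
    refine sum_le_sum fun j _ => ?_
    have hn : (0 : ℝ) < nn j := by exact_mod_cast hnn j
    simp only []
    rw [sum_ite_mem, univ_inter, sum_const, nsmul_eq_mul]
    change (A'.card : ℝ) * (cc j / nn j) ≤ c * cc j
    rcases (univ.filter fun y : Fin (nn j) => (⟨j, y⟩ : BB nn) ∈ B').eq_empty_or_nonempty with
      h | ⟨y, hy⟩
    · have : cc j = 0 := by simp only [hcc, h, card_empty, Nat.cast_zero]
      rw [this]
      simp
    · have h8 : (A'.card : ℝ) ≤ c * nn j := hc ⟨j, y⟩ (mem_filter.1 hy).2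
      rw [← mul_div_assoc, div_le_iff₀ hn]
      nlinarith [mul_le_mul_of_nonneg_right h8 (hcc0 j)]
  simp only [h1]
  rw [h2]
  refine (prod_le_prod (fun p _ => sum_nonneg fun y _ => ?_) fun p _ => h3 p).trans ?_
  · split_ifs
    · exact (exp_pos t).le
    · exact zero_le_one
  rw [prod_mul_distrib, ← exp_sum, ← mul_sum, Fintype.card_pi]
  simp only [Fintype.card_fin]
  push_cast
  exact mul_le_mul_of_nonneg_left (exp_le_exp.2 (mul_le_mul_of_nonneg_left h7 he))
    (prod_nonneg fun p _ => Nat.cast_nonneg _)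

theorem lu_bad {a l : ℕ} (nn : Fin l → ℕ) (hnn : ∀ j, 0 < nn j) {η : ℝ} {k : ℕ} (hη : 0 < η)
    (hη1 : η ≤ 1) (A' : Finset (Fin a)) (B' : Finset (BB nn))
    (hc : ∀ b ∈ B', (1 + η) * A'.card ≤ (k : ℝ) * nn b.1) :
    ((univ.filter fun f : Om a nn => k * B'.card ≤
      (univ.filter fun p : Fin a × Fin l => p.1 ∈ A' ∧ nb f p ∈ B').card).card : ℝ) ≤
      Fintype.card (Om a nn) * exp (-(η ^ 2 / 8 * (k * B'.card))) := by
  have h1η : 0 < 1 + η := by linarith
  have hm := lu_mgf nn hnn A' B' (t := η / 2) (c := k / (1 + η)) (by positivity) (by positivity)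
    (fun b hb => by
      rw [div_mul_eq_mul_div, le_div_iff₀ h1η]
      linarith [hc b hb])
  set S := univ.filter fun f : Om a nn => k * B'.card ≤
      (univ.filter fun p : Fin a × Fin l => p.1 ∈ A' ∧ nb f p ∈ B').card with hS
  set X : ℝ := (k : ℝ) * B'.card with hX
  have hX0 : 0 ≤ X := by positivity
  have h1 : (S.card : ℝ) * exp (η / 2 * X) ≤ ∑ f : Om a nn,
      exp (η / 2 * (univ.filter fun p : Fin a × Fin l => p.1 ∈ A' ∧ nb f p ∈ B').card) := by
    refine le_trans ?_ (sum_le_sum_of_subset_of_nonneg (subset_univ S)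
      fun f _ _ => (exp_pos _).le)
    rw [← nsmul_eq_mul, ← sum_const]
    refine sum_le_sum fun f hf => exp_le_exp.2 (mul_le_mul_of_nonneg_left ?_ (by positivity))
    have := (mem_filter.1 hf).2
    rw [hX]
    exact_mod_cast this
  have h2 : exp (η / 2) - 1 ≤ η / 2 + (η / 2) ^ 2 := by
    have := Real.abs_exp_sub_one_sub_id_le (x := η / 2) (by rw [abs_of_pos (by positivity)]; linarith)
    linarith [le_abs_self (exp (η / 2) - 1 - η / 2)]
  have h3 : (exp (η / 2) - 1) * (k / (1 + η) * B'.card) ≤ -(η ^ 2 / 8 * X) + η / 2 * X := by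
    have h4 : (k : ℝ) / (1 + η) * B'.card = X / (1 + η) := by rw [hX]; ring
    rw [h4, ← mul_div_assoc, div_le_iff₀ h1η]
    have h5 : (exp (η / 2) - 1) * X ≤ (η / 2 + (η / 2) ^ 2) * X :=
      mul_le_mul_of_nonneg_right h2 hX0
    have h6 : η / 2 + (η / 2) ^ 2 ≤ (-(η ^ 2 / 8) + η / 2) * (1 + η) := by
      nlinarith [mul_nonneg (sq_nonneg η) (sub_nonneg.2 hη1)]
    nlinarith [mul_le_mul_of_nonneg_right h6 hX0]
  have h7 : (S.card : ℝ) * exp (η / 2 * X) ≤
      Fintype.card (Om a nn) * exp (-(η ^ 2 / 8 * X)) * exp (η / 2 * X) := by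
    rw [mul_assoc, ← exp_add]
    exact h1.trans (hm.trans (mul_le_mul_of_nonneg_left (exp_le_exp.2 h3) (Nat.cast_nonneg _)))
  exact le_of_mul_le_mul_right h7 (exp_pos _)

theorem lu_pow {α : Type} [Fintype α] [DecidableEq α] {u : ℝ} (hu : 0 ≤ u)
    (h : (Fintype.card α : ℝ) * u ≤ 1 / 4) : ∑ s : Finset α, u ^ s.card ≤ 4 / 3 := by
  have h1 : ∑ s : Finset α, u ^ s.card = (1 + u) ^ Fintype.card α := by
    rw [← card_univ, ← prod_const, prod_one_add, powerset_univ]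
    simp only [prod_const]
  have h2 : (1 + u) ^ Fintype.card α ≤ exp u ^ Fintype.card α :=
    pow_le_pow_left₀ (by linarith) (by linarith [add_one_le_exp u]) _
  rw [← exp_nat_mul] at h2
  have h3 : exp ((Fintype.card α : ℝ) * u) ≤ exp (1 / 4) := exp_le_exp.2 h
  have h4 : exp (1 / 4 : ℝ) ≤ 4 / 3 := by
    have h5 := add_one_le_exp (-(1 / 4) : ℝ)
    have h6 : exp (1 / 4 : ℝ) * exp (-(1 / 4)) = 1 := by rw [← exp_add]; simp
    nlinarith [exp_pos (1 / 4 : ℝ)]
  linarith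

theorem lun {a l : ℕ} (nn : Fin l → ℕ) (hnn : ∀ j, 0 < nn j) {η γ : ℝ} {k n : ℕ} (hη : 0 < η)
    (hη1 : η ≤ 1) (hγ : 0 < γ) (hγ1 : γ ≤ 1) (ha : a ≤ n) (hs : ∑ j, nn j ≤ n)
    (hn : (n : ℝ) * exp (-(η ^ 2 / 16 * γ * k)) ≤ 1 / 4) :
    ∃ f : Om a nn, ∀ (A' : Finset (Fin a)) (B' : Finset (BB nn)),
      (∀ b ∈ B', (1 + η) * A'.card ≤ (k : ℝ) * nn b.1) →
      k * B'.card ≤ (univ.filter fun p : Fin a × Fin l => p.1 ∈ A' ∧ nb f p ∈ B').card →
      (B'.card : ℝ) ≤ γ * A'.card := by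
  classical
  by_contra hcon
  push Not at hcon
  set u : ℝ := exp (-(η ^ 2 / 16 * γ * k)) with hu
  have hu0 : 0 < u := exp_pos _
  set W : ℝ := (Fintype.card (Om a nn) : ℝ) with hW
  have hW0 : 0 < W := by
    haveI : Nonempty (Om a nn) := ⟨fun p => ⟨0, hnn p.2⟩⟩
    rw [hW]
    exact_mod_cast Fintype.card_pos
  let bad : Finset (Fin a) → Finset (BB nn) → Finset (Om a nn) := fun A' B' =>
    univ.filter fun f => (∀ b ∈ B', (1 + η) * A'.card ≤ (k : ℝ) * nn b.1) ∧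
      k * B'.card ≤ (univ.filter fun p : Fin a × Fin l => p.1 ∈ A' ∧ nb f p ∈ B').card ∧
      γ * A'.card < (B'.card : ℝ)
  have hb : ∀ A' B', ((bad A' B').card : ℝ) ≤ W * (u ^ A'.card * u ^ B'.card) := by
    intro A' B'
    rcases (bad A' B').eq_empty_or_nonempty with h | ⟨f, hf⟩
    · rw [h, card_empty, Nat.cast_zero]
      positivity
    obtain ⟨h1, -, h3⟩ := (mem_filter.1 hf).2
    have h4 : bad A' B' ⊆ univ.filter fun f : Om a nn => k * B'.card ≤
        (univ.filter fun p : Fin a × Fin l => p.1 ∈ A' ∧ nb f p ∈ B').card :=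
      fun g hg => mem_filter.2 ⟨mem_univ _, (mem_filter.1 hg).2.2.1⟩
    refine (Nat.cast_le.2 (card_le_card h4)).trans ((lu_bad nn hnn hη hη1 A' B' h1).trans ?_)
    refine mul_le_mul_of_nonneg_left ?_ hW0.le
    rw [hu, ← exp_nat_mul, ← exp_nat_mul, ← exp_add]
    refine exp_le_exp.2 ?_
    have h5 : γ * B'.card ≤ (B'.card : ℝ) :=
      mul_le_of_le_one_left (Nat.cast_nonneg _) hγ1
    have h6 : 0 ≤ η ^ 2 / 16 * k := by positivity
    nlinarith [mul_le_mul_of_nonneg_left h5 h6, mul_le_mul_of_nonneg_left h3.le h6]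
  have hsub : (univ : Finset (Om a nn)) ⊆ (univ : Finset (Finset (Fin a))).biUnion fun A' =>
      ((univ : Finset (Finset (BB nn))).erase ∅).biUnion fun B' => bad A' B' := by
    intro f _
    obtain ⟨A', B', h1, h2, h3⟩ := hcon f
    refine mem_biUnion.2 ⟨A', mem_univ _, mem_biUnion.2 ⟨B', mem_erase.2 ⟨?_, mem_univ _⟩,
      mem_filter.2 ⟨mem_univ _, h1, h2, h3⟩⟩⟩
    rintro rfl
    have : 0 ≤ γ * A'.card := by positivity
    simp only [card_empty, Nat.cast_zero] at h3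
    linarith
  have hA : ∑ s : Finset (Fin a), u ^ s.card ≤ 4 / 3 := by
    refine lu_pow hu0.le (le_trans (mul_le_mul_of_nonneg_right ?_ hu0.le) hn)
    rw [Fintype.card_fin]
    exact_mod_cast ha
  have hB : ∑ s ∈ (univ : Finset (Finset (BB nn))).erase ∅, u ^ s.card ≤ 1 / 3 := by
    have h1 : ∑ s : Finset (BB nn), u ^ s.card ≤ 4 / 3 := by
      refine lu_pow hu0.le (le_trans (mul_le_mul_of_nonneg_right ?_ hu0.le) hn)
      rw [Fintype.card_sigma]
      simp only [Fintype.card_fin]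
      exact_mod_cast hs
    have h2 := add_sum_erase (univ : Finset (Finset (BB nn))) (fun s => u ^ s.card) (mem_univ ∅)
    simp only [card_empty, pow_zero] at h2
    linarith
  have hle : W ≤ W * (4 / 3 * (1 / 3)) := by
    calc W = ((univ : Finset (Om a nn)).card : ℝ) := by rw [hW, card_univ]
      _ ≤ ∑ A' : Finset (Fin a), ∑ B' ∈ (univ : Finset (Finset (BB nn))).erase ∅,
            ((bad A' B').card : ℝ) := by
          have h1 := (card_le_card hsub).trans (card_biUnion_le.trans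
            (sum_le_sum fun A' _ => card_biUnion_le))
          exact_mod_cast h1
      _ ≤ ∑ A' : Finset (Fin a), ∑ B' ∈ (univ : Finset (Finset (BB nn))).erase ∅,
            W * (u ^ A'.card * u ^ B'.card) :=
          sum_le_sum fun A' _ => sum_le_sum fun B' _ => hb A' B'
      _ = W * ((∑ s : Finset (Fin a), u ^ s.card) *
            ∑ s ∈ (univ : Finset (Finset (BB nn))).erase ∅, u ^ s.card) := by
          rw [sum_mul_sum, mul_sum]
          refine sum_congr rfl fun A' _ => ?_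
          rw [mul_sum]
      _ ≤ W * (4 / 3 * (1 / 3)) := by
          refine mul_le_mul_of_nonneg_left ?_ hW0.le
          exact mul_le_mul hA hB (sum_nonneg fun s _ => by positivity) (by norm_num)
  linarith

end Pool.Agent.Work.MP_78fef3_co.L
end

-- part LDet
section
namespace Pool.Agent.Work.MP_78fef3_co.L

open Finset Real

theorem ld_up {α β : Type} [DecidableEq β] {s : Finset α} {t : Finset β} {g : α → β} {c : β → ℝ}
    (h : ∀ x ∈ s, g x ∈ t) (hc : ∀ y ∈ t, ((s.filter fun x => g x = y).card : ℝ) ≤ c y) :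
    (s.card : ℝ) ≤ ∑ y ∈ t, c y := by
  rw [card_eq_sum_card_fiberwise (f := g) (s := s) (t := t) h]
  push_cast
  exact sum_le_sum hc

theorem ld_low {α β : Type} [DecidableEq β] {s : Finset α} {t : Finset β} {g : α → β} {c : ℕ}
    (h : ∀ x ∈ s, g x ∈ t) (hc : ∀ y ∈ t, c ≤ (s.filter fun x => g x = y).card) :
    c * t.card ≤ s.card := by
  rw [card_eq_sum_card_fiberwise (f := g) (s := s) (t := t) h, mul_comm, ← smul_eq_mul]
  exact card_nsmul_le_sum _ _ _ hc

theorem ldet {a l : ℕ} {nn : Fin l → ℕ} {V : Type} (e : (Fin a ⊕ BB nn) ≃ V) (f : Om a nn)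
    {k : ℕ} {C η γ : ℝ} (hC : 0 < C) (hγ : C * γ ≤ η)
    (hf : ∀ (A' : Finset (Fin a)) (B' : Finset (BB nn)),
      (∀ b ∈ B', (1 + η) * A'.card ≤ (k : ℝ) * nn b.1) →
      k * B'.card ≤ (univ.filter fun p : Fin a × Fin l => p.1 ∈ A' ∧ nb f p ∈ B').card →
      (B'.card : ℝ) ≤ γ * A'.card)
    (hs : ∀ m : ℕ, ∑ j ∈ univ.filter (fun j : Fin l => (k : ℝ) * nn j < (1 + η) * m),
      min (m : ℝ) (C * k * nn j) ≤ (1 - η) * k * m) :
    ¬ ∃ H : (graph e f).Subgraph, H.verts.Nonempty ∧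
      ∀ x ∈ H.verts, k < (H.neighborSet x).ncard ∧ ((H.neighborSet x).ncard : ℝ) < C * k := by
  classical
  rintro ⟨H, ⟨x, hx⟩, hdeg⟩
  have hne : (edges H).Nonempty := by
    have h1 : (H.neighborSet x).Nonempty := Set.nonempty_of_ncard_ne_zero (by
      have := (hdeg x hx).1
      omega)
    obtain ⟨y, hy⟩ := h1
    obtain ⟨p, ⟨h1, h2⟩ | ⟨h1, h2⟩⟩ := H.adj_sub hy
    · exact ⟨p, mem_edges.2 (by rw [← h1, ← h2]; exact hy)⟩
    · exact ⟨p, mem_edges.2 (by rw [← h1, ← h2]; exact hy.symm)⟩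
  obtain ⟨A', hA⟩ : ∃ A' : Finset (Fin a), ∀ v, v ∈ A' ↔ e (Sum.inl v) ∈ H.verts :=
    ⟨univ.filter fun v => e (Sum.inl v) ∈ H.verts, fun v => by simp⟩
  obtain ⟨B', hB⟩ : ∃ B' : Finset (BB nn), ∀ b, b ∈ B' ↔ e (Sum.inr b) ∈ H.verts ∧
      (1 + η) * A'.card ≤ (k : ℝ) * nn b.1 :=
    ⟨univ.filter fun b => e (Sum.inr b) ∈ H.verts ∧ (1 + η) * A'.card ≤ (k : ℝ) * nn b.1,
      fun v => by simp⟩
  have eA : ∀ p ∈ edges H, p.1 ∈ A' := fun p hp => (hA _).2 (H.edge_vert (mem_edges.1 hp))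
  have eB : ∀ p ∈ edges H, e (Sum.inr (nb f p)) ∈ H.verts := fun p hp =>
    H.edge_vert (mem_edges.1 hp).symm
  have m0 : (0 : ℝ) < A'.card := by
    obtain ⟨p, hp⟩ := hne
    exact_mod_cast card_pos.2 ⟨_, eA p hp⟩
  have Ck : 0 ≤ C * k := by positivity
  have dB : ∀ b, (((edges H).filter fun p => nb f p = b).card : ℝ) ≤ C * k := fun b => by
    rcases ((edges H).filter fun p => nb f p = b).eq_empty_or_nonempty with h | ⟨p, hp⟩
    · rw [h, card_empty, Nat.cast_zero]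
      exact Ck
    · obtain ⟨p1, p2⟩ := mem_filter.1 hp
      rw [← ncard_right]
      exact (hdeg _ (p2 ▸ eB p p1)).2.le
  have h1 : (k + 1) * A'.card ≤ (edges H).card := ld_low eA fun v hv => by
    rw [← ncard_left]
    exact (hdeg _ ((hA v).1 hv)).1
  have fib : ∀ b ∈ B', (((edges H).filter fun p => nb f p ∈ B').filter fun p => nb f p = b) =
      (edges H).filter fun p => nb f p = b := fun b hb => by
    rw [filter_filter]
    exact filter_congr fun p _ => ⟨fun h => h.2, fun h => ⟨h ▸ hb, h⟩⟩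
  have h2 : k * B'.card ≤ ((edges H).filter fun p => nb f p ∈ B').card :=
    ld_low (g := nb f) (fun p hp => (mem_filter.1 hp).2) fun b hb => by
      rw [fib b hb, ← ncard_right]
      exact (hdeg _ ((hB b).1 hb).1).1.le
  have h3 : (B'.card : ℝ) ≤ γ * A'.card :=
    hf A' B' (fun b hb => ((hB b).1 hb).2) (h2.trans (card_le_card fun p hp =>
      mem_filter.2 ⟨mem_univ _, eA p (mem_filter.1 hp).1, (mem_filter.1 hp).2⟩))
  have h4 : (((edges H).filter fun p => nb f p ∈ B').card : ℝ) ≤ ∑ _b ∈ B', C * k :=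
    ld_up (g := nb f) (fun p hp => (mem_filter.1 hp).2) fun b hb => by
      rw [fib b hb]
      exact dB b
  rw [sum_const, nsmul_eq_mul] at h4
  have h5 : (((edges H).filter fun p => ¬ nb f p ∈ B').card : ℝ) ≤
      ∑ j ∈ univ.filter (fun j : Fin l => (k : ℝ) * nn j < (1 + η) * A'.card),
        min (A'.card : ℝ) (C * k * nn j) := by
    refine ld_up (g := Prod.snd) (fun p hp => ?_) fun j _ => le_min ?_ ?_
    · obtain ⟨p1, p2⟩ := mem_filter.1 hp
      exact mem_filter.2 ⟨mem_univ _, lt_of_not_ge fun h => p2 ((hB _).2 ⟨eB p p1, h⟩)⟩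
    · refine Nat.cast_le.2 (card_le_card_of_injOn Prod.fst (fun p hp => ?_) fun p hp q hq h => ?_)
      · exact eA p (mem_filter.1 (mem_filter.1 hp).1).1
      · exact Prod.ext h ((mem_filter.1 hp).2.trans (mem_filter.1 hq).2.symm)
    · have h6 : (((((edges H).filter fun p => ¬ nb f p ∈ B').filter fun p => p.2 = j)).card : ℝ) ≤
          ∑ _b ∈ (univ : Finset (Fin (nn j))).image (fun y => (⟨j, y⟩ : BB nn)), C * k := by
        refine ld_up (g := nb f) (fun p hp => ?_) fun b _ => le_trans (Nat.cast_le.2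
          (card_le_card fun p hp => ?_)) (dB b)
        · obtain rfl := (mem_filter.1 hp).2
          exact mem_image.2 ⟨f p, mem_univ _, rfl⟩
        · obtain ⟨p1, p2⟩ := mem_filter.1 hp
          exact mem_filter.2 ⟨(mem_filter.1 (mem_filter.1 p1).1).1, p2⟩
      rw [sum_const, nsmul_eq_mul] at h6
      have h7 : (((univ : Finset (Fin (nn j))).image (fun y => (⟨j, y⟩ : BB nn))).card : ℝ) ≤
          nn j := by
        refine Nat.cast_le.2 (card_image_le.trans ?_)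
        rw [card_univ, Fintype.card_fin]
      have h8 := mul_le_mul_of_nonneg_right h7 Ck
      linarith only [h6, h8]
  have h9 := card_filter_add_card_filter_not (s := edges H) (fun p => nb f p ∈ B')
  have h10 : (((edges H).filter fun p => nb f p ∈ B').card : ℝ) +
      ((edges H).filter fun p => ¬ nb f p ∈ B').card = (edges H).card := by exact_mod_cast h9
  have h11 : ((k : ℝ) + 1) * A'.card ≤ (edges H).card := by exact_mod_cast h1
  have h12 := mul_le_mul_of_nonneg_right h3 Ck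
  have h13 := mul_le_mul_of_nonneg_right hγ (mul_nonneg (Nat.cast_nonneg (α := ℝ) k) m0.le)
  have h14 := hs A'.card
  linarith only [h4, h5, h10, h11, h12, h13, h14, m0]

end Pool.Agent.Work.MP_78fef3_co.L
end

-- part LSum
section
namespace Pool.Agent.Work.MP_78fef3_co.L

open Finset Real

theorem ls_geo (n : ℕ) {z : ℝ} (hz : 0 < z) :
    ∑ j ∈ range n, exp ((j : ℝ) / z) ≤ z * exp (n / z) := by
  induction n with
  | zero => rw [sum_range_zero]; positivity
  | succ n ih =>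
    rw [sum_range_succ]
    have e : exp (((n + 1 : ℕ) : ℝ) / z) = exp (n / z) * exp (1 / z) := by
      rw [← exp_add, Nat.cast_succ, add_div]
    have h1 : 1 / z + 1 ≤ exp (1 / z) := add_one_le_exp _
    have h2 : z + 1 ≤ z * exp (1 / z) := by
      have h := mul_le_mul_of_nonneg_left h1 hz.le
      have e2 : z * (1 / z + 1) = z + 1 := by field_simp; ring
      linarith
    have h3 := exp_pos ((n : ℝ) / z)
    have h4 := mul_le_mul_of_nonneg_left h2 h3.le
    rw [e]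
    linarith

theorem ls_low {l : ℕ} (A : Finset (Fin l)) {s0 z T : ℝ} (hs0 : 0 < s0) (hz : 0 < z) (hT : 0 ≤ T)
    (h : ∀ j ∈ A, s0 * exp ((j : ℕ) / z) ≤ T) :
    ∑ j ∈ A, s0 * exp ((j : ℕ) / z) ≤ T * (z + 1) := by
  rcases A.eq_empty_or_nonempty with rfl | hne
  · rw [sum_empty]; positivity
  obtain ⟨j1, hj1, hmax⟩ := A.exists_max_image (fun j => (j : ℕ)) hne
  have e : ∑ j ∈ A, s0 * exp ((j : ℕ) / z)
      = ∑ i ∈ A.map Fin.valEmbedding, s0 * exp ((i : ℝ) / z) := by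
    rw [sum_map]; rfl
  have hsub : A.map Fin.valEmbedding ⊆ range (j1 + 1) := fun i hi => by
    obtain ⟨j, hj, rfl⟩ := mem_map.1 hi
    exact mem_range.2 (Nat.lt_succ_of_le (hmax j hj))
  have h1 := sum_le_sum_of_subset_of_nonneg (f := fun i : ℕ => s0 * exp ((i : ℝ) / z)) hsub
    (fun _ _ _ => by positivity)
  rw [e]
  refine h1.trans ?_
  rw [sum_range_succ, ← mul_sum]
  have h2 := mul_le_mul_of_nonneg_left (ls_geo j1 hz) hs0.le
  have h3 := h j1 hj1
  have h4 := mul_le_mul_of_nonneg_left h3 hz.le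
  linarith

theorem ls_card {l : ℕ} (B : Finset (Fin l)) {L : ℝ} (hL : 0 ≤ L)
    (h : ∀ i ∈ B, ∀ j ∈ B, ((j : ℕ) : ℝ) ≤ (i : ℕ) + L) : (B.card : ℝ) ≤ L + 1 := by
  rcases B.eq_empty_or_nonempty with rfl | hne
  · rw [card_empty, Nat.cast_zero]; positivity
  obtain ⟨j0, hj0, hmin⟩ := B.exists_min_image (fun j => (j : ℕ)) hne
  have hsub : B.map Fin.valEmbedding ⊆ Icc (j0 : ℕ) (j0 + ⌊L⌋₊) := fun i hi => by
    obtain ⟨j, hj, rfl⟩ := mem_map.1 hi
    have a1 : (j0 : ℕ) ≤ j := hmin j hj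
    have a2 : (j : ℕ) - j0 ≤ ⌊L⌋₊ := by
      refine Nat.le_floor ?_
      rw [Nat.cast_sub a1]
      linarith [h j0 hj0 j hj]
    refine mem_Icc.2 ⟨a1, ?_⟩
    change (j : ℕ) ≤ _
    omega
  have h1 := card_le_card hsub
  rw [card_map, Nat.card_Icc] at h1
  have h2 : B.card ≤ ⌊L⌋₊ + 1 := by omega
  have h3 : (B.card : ℝ) ≤ (⌊L⌋₊ : ℝ) + 1 := by exact_mod_cast h2
  linarith [Nat.floor_le hL]

theorem lsum {l : ℕ} (nn : Fin l → ℕ) {C η s0 z k m : ℝ} (hC : 1 ≤ C) (hη : 0 < η) (hs0 : 0 < s0)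
    (hz : 0 < z) (hk : 0 < k) (hm : 0 ≤ m) (h1 : ∀ j : Fin l, s0 * exp ((j : ℕ) / z) ≤ nn j)
    (h2 : ∀ j : Fin l, (nn j : ℝ) ≤ (1 + η) * (s0 * exp ((j : ℕ) / z))) :
    ∑ j ∈ univ.filter (fun j : Fin l => k * nn j < (1 + η) * m), min m (C * k * nn j) ≤
      m * (z * (1 + log C + 2 * η) + 2) := by
  have hC0 : 0 < C := by linarith
  have hD : 0 < C * k * (1 + η) := by positivity
  have hlog : 0 ≤ log C := log_nonneg hC
  set S := univ.filter (fun j : Fin l => k * nn j < (1 + η) * m) with hS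
  rw [← sum_filter_add_sum_filter_not S
    (fun j : Fin l => C * k * (1 + η) * (s0 * exp ((j : ℕ) / z)) ≤ m)]
  have a1 : ∑ j ∈ S.filter (fun j : Fin l => C * k * (1 + η) * (s0 * exp ((j : ℕ) / z)) ≤ m),
      min m (C * k * nn j) ≤ m * (z + 1) := by
    refine le_trans (sum_le_sum (g := fun j : Fin l =>
      C * k * (1 + η) * s0 * exp ((j : ℕ) / z)) fun j _ => (min_le_right _ _).trans ?_)
      (ls_low _ (by positivity) hz hm fun j hj => ?_)
    · have := mul_le_mul_of_nonneg_left (h2 j) (by positivity : 0 ≤ C * k)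
      linarith
    · have := (mem_filter.1 hj).2
      linarith
  have a2 : ((S.filter (fun j : Fin l =>
      ¬ C * k * (1 + η) * (s0 * exp ((j : ℕ) / z)) ≤ m)).card : ℝ) ≤ z * (log C + 2 * η) + 1 := by
    refine ls_card _ (by positivity) fun i hi j hj => ?_
    have b1 := not_le.1 (mem_filter.1 hi).2
    have b2 := (mem_filter.1 (mem_filter.1 hj).1).2
    have b3 := mul_le_mul_of_nonneg_left (h1 j) hk.le
    have b4 := mul_lt_mul_of_pos_left b1 (by positivity : 0 < 1 + η)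
    have b5 : 1 + η ≤ exp η := by linarith [add_one_le_exp η]
    have b6 : C * (1 + η) * (1 + η) ≤ exp (log C + 2 * η) := by
      rw [two_mul, exp_add, exp_add, exp_log hC0, ← mul_assoc]
      gcongr
    have b7 : k * s0 * exp ((j : ℕ) / z)
        ≤ k * s0 * (exp ((i : ℕ) / z) * exp (log C + 2 * η)) := by
      have := mul_le_mul_of_nonneg_left b6
        (by positivity : 0 ≤ k * s0 * exp ((i : ℕ) / z))
      linarith
    have b8 := le_of_mul_le_mul_left b7 (by positivity)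
    rw [← exp_add, exp_le_exp, div_le_iff₀ hz, add_mul, div_mul_cancel₀ _ hz.ne'] at b8
    linarith
  have a3 := sum_le_card_nsmul (S.filter (fun j : Fin l =>
      ¬ C * k * (1 + η) * (s0 * exp ((j : ℕ) / z)) ≤ m)) (fun j => min m (C * k * nn j)) m
    fun j _ => min_le_left _ _
  rw [nsmul_eq_mul] at a3
  have a4 := mul_le_mul_of_nonneg_right a2 hm
  linarith

theorem lgeo (l : ℕ) {z : ℝ} (hz : 0 < z) :
    ∑ j : Fin l, exp ((j : ℕ) / z) ≤ z * exp (l / z) := by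
  rw [Fin.sum_univ_eq_sum_range (fun j => exp ((j : ℝ) / z)) l]
  exact ls_geo l hz

end Pool.Agent.Work.MP_78fef3_co.L
end

-- part LSz
section
namespace Pool.Agent.Work.MP_78fef3_co.L

open Finset Real

theorem lsz {C ε : ℝ} (hC : 1 < C) (hε : 0 < ε) :
    ∃ η K : ℝ, 0 < η ∧ η ≤ 1 ∧ ∀ n k : ℕ, 1 ≤ k → K ≤ k → K * k ≤ n →
      ∃ (l : ℕ) (nn : Fin l → ℕ), (∀ j, 0 < nn j) ∧ ∑ j, nn j ≤ n ∧
        (1 - ε) * k * n * log (n / k) / (1 + log C) ≤ ((n - ∑ j, nn j : ℕ) : ℝ) * l ∧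
        ∀ m : ℕ, ∑ j ∈ univ.filter (fun j : Fin l => (k : ℝ) * nn j < (1 + η) * m),
          min (m : ℝ) (C * k * nn j) ≤ (1 - η) * k * m := by
  obtain ⟨δ, d0, d1, d2⟩ : ∃ δ : ℝ, 0 < δ ∧ δ ≤ 1 / 2 ∧ 3 * δ ≤ ε :=
    ⟨min (ε / 3) (1 / 2), by positivity, min_le_right _ _, by linarith [min_le_left (ε / 3) (1 / 2)]⟩
  obtain ⟨A, hA⟩ : ∃ A, A = 1 + log C := ⟨_, rfl⟩
  have A1 : 1 ≤ A := by linarith [log_pos hC]
  obtain ⟨s, hs⟩ : ∃ s : ℝ, s = 8 / δ := ⟨_, rfl⟩
  have s0 : 0 < s := by rw [hs]; positivity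
  have s1 : δ / 8 * s = 1 := by rw [hs]; field_simp
  obtain ⟨c, hc⟩ : ∃ c, c = log (2 * s / δ) := ⟨_, rfl⟩
  have c1 : 2 * s * exp (-c) = δ := by
    rw [hc, exp_neg, exp_log (by positivity)]
    field_simp
  have c0 : 0 ≤ c := hc ▸ log_nonneg (by rw [le_div_iff₀ d0]; nlinarith)
  refine ⟨δ / 8, 4 / δ + 2 * A + exp ((c + 1) / δ), by positivity, by linarith,
    fun n k hk hK hn => ?_⟩
  have k0 : (0 : ℝ) < k := by exact_mod_cast hk
  have e0 := exp_pos ((c + 1) / δ)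
  have e1 : 0 < 4 / δ := by positivity
  have k1 : 4 ≤ δ * k := by
    have : 4 / δ ≤ k := by linarith
    rwa [div_le_iff₀' d0] at this
  have k2 : 2 * A ≤ k := by linarith
  have n1 : exp ((c + 1) / δ) ≤ n / k := by
    rw [le_div_iff₀ k0]
    nlinarith
  have n0 : (0 : ℝ) < n / k := e0.trans_le n1
  obtain ⟨L, hL⟩ : ∃ L, L = log ((n : ℝ) / k) := ⟨_, rfl⟩
  have L1 : c + 1 ≤ δ * L := by
    rw [← div_le_iff₀' d0, hL]
    exact (le_log_iff_exp_le n0).2 n1
  have L0 : 0 ≤ L := by nlinarith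
  obtain ⟨z, hz⟩ : ∃ z : ℝ, z = (1 - δ) * k / A := ⟨_, rfl⟩
  have zA : z * A = (1 - δ) * k := by rw [hz]; field_simp
  have z1 : 1 ≤ z := by
    rw [hz, le_div_iff₀ (by linarith)]
    nlinarith
  have zk : z ≤ k := by nlinarith
  have z0 : 0 < z := by linarith
  have x0 : 0 ≤ z * (L - c) := mul_nonneg z0.le (by nlinarith)
  have h1 : ∀ j : ℕ, s * exp (j / z) ≤ ⌈s * exp (j / z)⌉₊ := fun j => Nat.le_ceil _
  have h2 : ∀ j : ℕ, (⌈s * exp (j / z)⌉₊ : ℝ) ≤ (1 + δ / 8) * (s * exp (j / z)) := fun j => by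
    have a1 := Nat.ceil_lt_add_one (show 0 ≤ s * exp (j / z) by positivity)
    have a2 : 1 ≤ exp (j / z) := one_le_exp (by positivity)
    have a3 : δ / 8 * (s * exp (j / z)) = exp (j / z) := by rw [← mul_assoc, s1, one_mul]
    linarith
  have l1 := Nat.floor_le x0
  have l2 := Nat.lt_floor_add_one (z * (L - c))
  generalize ⌊z * (L - c)⌋₊ = l at l1 l2
  have hsum : ((∑ j : Fin l, ⌈s * exp ((j : ℕ) / z)⌉₊ : ℕ) : ℝ) ≤ δ * n := by
    have a1 : exp (l / z) ≤ n / k * exp (-c) := by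
      rw [← exp_log n0, ← hL, ← exp_add, exp_le_exp, div_le_iff₀' z0]
      linarith
    calc _ ≤ ∑ j : Fin l, 2 * s * exp ((j : ℕ) / z) := by
          rw [Nat.cast_sum]
          refine sum_le_sum fun j _ => (h2 j).trans ?_
          rw [mul_assoc]
          exact mul_le_mul_of_nonneg_right (by linarith) (by positivity)
      _ ≤ 2 * s * (z * exp (l / z)) := by
          rw [← mul_sum]
          exact mul_le_mul_of_nonneg_left (lgeo l z0) (by positivity)
      _ ≤ 2 * s * (k * (n / k * exp (-c))) := by gcongr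
      _ = δ * n := by
          rw [← c1]
          field_simp
  have nn0 : (0 : ℝ) ≤ n := Nat.cast_nonneg n
  have hle : ∑ j : Fin l, ⌈s * exp ((j : ℕ) / z)⌉₊ ≤ n := by
    rw [← Nat.cast_le (α := ℝ)]
    have := mul_le_mul_of_nonneg_right (show δ ≤ 1 by linarith) nn0
    linarith
  refine ⟨l, fun j => ⌈s * exp ((j : ℕ) / z)⌉₊, fun j => Nat.ceil_pos.2 (by positivity), hle,
    ?_, fun m => ?_⟩
  · rw [Nat.cast_sub hle, ← hL, ← hA]
    have a1 : z * ((1 - δ) * L) ≤ l := by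
      have := mul_le_mul_of_nonneg_left (show (1 - δ) * L ≤ L - c - 1 by linarith) z0.le
      linarith
    have a2 : 1 - ε ≤ (1 - δ) ^ 3 := by
      have := mul_nonneg (sq_nonneg δ) (show 0 ≤ 3 - δ by linarith)
      linarith
    have a3 : 0 ≤ 1 - δ := by linarith
    calc _ ≤ (1 - δ) ^ 3 * k * n * L / A := by gcongr
      _ = (1 - δ) * n * (z * ((1 - δ) * L)) := by
          rw [hz]
          field_simp
      _ ≤ _ := mul_le_mul (by linarith) a1 (by positivity) (by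
          have := mul_nonneg a3 nn0
          linarith)
  · refine (lsum (l := l) (fun j => ⌈s * exp ((j : ℕ) / z)⌉₊) hC.le (by positivity) s0 z0 k0
      (Nat.cast_nonneg m) (fun j => h1 j) fun j => h2 j).trans ?_
    rw [mul_comm _ (m : ℝ), ← hA]
    refine mul_le_mul_of_nonneg_left ?_ (Nat.cast_nonneg m)
    have := mul_le_mul_of_nonneg_left zk d0.le
    linarith

end Pool.Agent.Work.MP_78fef3_co.L
end

-- part Low
section
namespace Pool.Agent.Work.MP_78fef3_co.L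

open Finset Real

theorem lower {C ε : ℝ} (hC : 1 < C) (hε : 0 < ε) :
    ∃ K : ℝ, ∀ n k : ℕ, 1 ≤ k → K * log n ≤ k → K * k ≤ n → ∃ G : SimpleGraph (Fin n),
      (¬ ∃ H : G.Subgraph, H.verts.Nonempty ∧
        ∀ x ∈ H.verts, k < (H.neighborSet x).ncard ∧ ((H.neighborSet x).ncard : ℝ) < C * k) ∧
      (1 - ε) * k * n * log (n / k) / (1 + log C) ≤ (G.edgeSet.ncard : ℝ) := by
  obtain ⟨η, K0, hη, hη1, h⟩ := lsz hC hε
  have hC0 : 0 < C := by linarith
  refine ⟨max (max 4 K0) (32 * C / η ^ 3), fun n k hk h1 h2 => ?_⟩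
  set K := max (max 4 K0) (32 * C / η ^ 3) with hK
  have K4 : 4 ≤ K := (le_max_left _ _).trans (le_max_left _ _)
  have KK : K0 ≤ K := (le_max_right _ _).trans (le_max_left _ _)
  have K3 : 32 * C / η ^ 3 ≤ K := le_max_right _ _
  have k1 : (1 : ℝ) ≤ k := by exact_mod_cast hk
  have n4 : (4 : ℝ) ≤ n := by nlinarith
  have l1 : 1 ≤ log n := by
    rw [le_log_iff_exp_le (by linarith)]
    linarith [exp_one_lt_three]
  have kK : K ≤ k := by nlinarith
  obtain ⟨l, nn, hnn, hsum, hedge, hs⟩ := h n k hk (KK.trans kK)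
    ((mul_le_mul_of_nonneg_right KK (by linarith)).trans h2)
  have hn : (n : ℝ) * exp (-(η ^ 2 / 16 * (η / C) * k)) ≤ 1 / 4 := by
    have a1 : 32 * C / η ^ 3 * log n ≤ k :=
      (mul_le_mul_of_nonneg_right K3 (by linarith)).trans h1
    have a2 : 2 * log n ≤ η ^ 2 / 16 * (η / C) * k := by
      have := mul_le_mul_of_nonneg_left a1 (show 0 ≤ η ^ 2 / 16 * (η / C) by positivity)
      refine le_trans (le_of_eq ?_) this
      field_simp
      ring
    have a3 : exp (-(η ^ 2 / 16 * (η / C) * k)) ≤ ((n : ℝ) * n)⁻¹ := by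
      refine (exp_le_exp.2 (neg_le_neg a2)).trans (le_of_eq ?_)
      rw [exp_neg, two_mul, exp_add, exp_log (by linarith)]
    refine (mul_le_mul_of_nonneg_left a3 (by linarith)).trans ?_
    rw [mul_inv, ← mul_assoc, mul_inv_cancel₀ (by linarith), one_mul, one_div]
    exact inv_anti₀ (by norm_num) n4
  obtain ⟨f, hf⟩ := lun (a := n - ∑ j, nn j) nn hnn hη hη1 (γ := η / C) (by positivity)
    ((div_le_one hC0).2 (by linarith)) (Nat.sub_le _ _) hsum hn
  have hcard : Fintype.card (Fin (n - ∑ j, nn j) ⊕ BB nn) = n := by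
    rw [Fintype.card_sum, Fintype.card_fin, Fintype.card_sigma]
    simp only [Fintype.card_fin]
    exact Nat.sub_add_cancel hsum
  let e : (Fin (n - ∑ j, nn j) ⊕ BB nn) ≃ Fin n := Fintype.equivFinOfCardEq hcard
  exact ⟨graph e f, ldet e f hC0 (by rw [mul_div_cancel₀ _ hC0.ne']) hf hs,
    hedge.trans (by exact_mod_cast card_edges e f)⟩

end Pool.Agent.Work.MP_78fef3_co.L
end
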