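import Mathlib

-- part Defs
section
namespace Pool.Agent.Work.MP_78fef3_co.L

open Finset Real

variable {V : Type}

/-- Weighted degree of `v`. -/
noncomputable def dg [Fintype V] (θ : V → ℝ) (w : V → V → ℝ) (v : V) : ℝ := ∑ u, θ u * w v u

/-- Vertex weights `θ` and symmetric edge weights `w` with weighted degrees at most `hi`. -/
structure Adm [Fintype V] (G : SimpleGraph V) (hi : ℝ) (θ : V → ℝ) (w : V → V → ℝ) : Prop where
  t0 : ∀ v, 0 ≤ θ v
  t1 : ∀ v, θ v ≤ 1
  w0 : ∀ u v, 0 ≤ w u v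
  w1 : ∀ u v, w u v ≤ 1
  sy : ∀ u v, w u v = w v u
  ad : ∀ u v, ¬ G.Adj u v → w u v = 0
  cap : ∀ v, 0 < θ v → dg θ w v ≤ hi

/-- The entropy function of an edge weight. -/
noncomputable def psi (x : ℝ) : ℝ := x - x * log x

/-- The entropy potential is positive at some admissible point. -/
def Pos [Fintype V] (G : SimpleGraph V) (lo hi : ℝ) : Prop :=
  ∃ θ w, Adm G hi θ w ∧ 2 * lo * ∑ v, θ v < ∑ u, ∑ v, θ u * θ v * psi (w u v)

/-- A fractional subgraph with all weighted degrees in `[lo, hi]`. -/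
def Sol [Fintype V] (G : SimpleGraph V) (lo hi : ℝ) : Prop :=
  ∃ θ w, Adm G hi θ w ∧ (∃ v, 0 < θ v) ∧ ∀ v, 0 < θ v → lo ≤ dg θ w v

/-- The one-sided potential of a head of weighted degree `x`. -/
noncomputable def Gf (C x : ℝ) : ℝ :=
  if x ≤ 1 then 0 else if x ≤ C then x - 1 else C - 1 + C * log (x / C)

/-- The edge weight at a head of weighted degree `x`. -/
noncomputable def Kf (C W x : ℝ) : ℝ := if 1 < x ∧ x ≤ W then min 1 (C / x) else 0

/-- `E` is a set of arcs along edges of `G` from `A` to its complement. -/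
def Arcs (G : SimpleGraph V) (A : Finset V) (E : Finset (V × V)) : Prop :=
  ∀ p ∈ E, G.Adj p.1 p.2 ∧ p.1 ∈ A ∧ p.2 ∉ A

variable [DecidableEq V]

/-- Out-degree. -/
def od (E : Finset (V × V)) (a : V) : ℕ := (E.filter fun p => p.1 = a).card

/-- In-degree. -/
def idg (E : Finset (V × V)) (b : V) : ℕ := (E.filter fun p => p.2 = b).card

/-- Weighted in-degree in units of `κ`. -/
noncomputable def xb (E : Finset (V × V)) (κ : ℝ) (θ : V → ℝ) (b : V) : ℝ :=
  (∑ p ∈ E.filter (fun p => p.2 = b), θ p.1) / κ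

/-- Weighted out-degree in units of `κ`. -/
noncomputable def Xa (C W : ℝ) (E : Finset (V × V)) (κ : ℝ) (θ : V → ℝ) (a : V) : ℝ :=
  (∑ p ∈ E.filter (fun p => p.1 = a), Kf C W (xb E κ θ p.2)) / κ

/-- The one-sided potential. -/
noncomputable def Phi (C W η lam : ℝ) (A B : Finset V) (E : Finset (V × V)) (κ : ℝ)
    (θ : V → ℝ) : ℝ :=
  ∑ b ∈ B, Gf C (min (xb E κ θ b) ((1 + η) * W)) - (1 + η) * lam * ∑ a ∈ A, θ a

open Classical in
/-- The weight carried by heavy tails. -/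
noncomputable def Hv (C W lam : ℝ) (A : Finset V) (E : Finset (V × V)) (κ : ℝ) (θ : V → ℝ) : ℝ :=
  ∑ a ∈ A.filter (fun a => C * lam < Xa C W E κ θ a), θ a * Xa C W E κ θ a

end Pool.Agent.Work.MP_78fef3_co.L
end

-- part Chern
section
namespace Pool.Agent.Work.MP_78fef3_co.L

open Finset Real

theorem ch_mgf {ι : Type} [Fintype ι] [DecidableEq ι] (p c : ι → ℝ)
    (hp0 : ∀ i, 0 ≤ p i) (hp1 : ∀ i, p i ≤ 1) (hc0 : ∀ i, 0 ≤ c i) (hc1 : ∀ i, c i ≤ 1) (s : ℝ) :
    ∑ S ∈ (univ : Finset ι).powerset,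
      ((∏ i ∈ S, p i) * ∏ i ∈ univ \ S, (1 - p i)) * exp (s * ∑ i ∈ S, c i)
      ≤ exp ((exp s - 1) * ∑ i, c i * p i) := by
  have h1 : ∀ S : Finset ι, ((∏ i ∈ S, p i) * ∏ i ∈ univ \ S, (1 - p i)) * exp (s * ∑ i ∈ S, c i)
      = (∏ i ∈ S, p i * exp (s * c i)) * ∏ i ∈ univ \ S, (1 - p i) := by
    intro S
    rw [Finset.mul_sum, Real.exp_sum, Finset.prod_mul_distrib]
    ring
  rw [Finset.sum_congr rfl (fun S _ => h1 S), ← Finset.prod_add, Finset.mul_sum, Real.exp_sum]
  refine Finset.prod_le_prod (fun i _ => ?_) (fun i _ => ?_)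
  · have := hp1 i
    have := mul_nonneg (hp0 i) (exp_pos (s * c i)).le
    linarith
  · have hcv : exp (s * c i) ≤ c i * exp s + (1 - c i) := by
      have := convexOn_exp.2 (Set.mem_univ s) (Set.mem_univ 0) (hc0 i) (sub_nonneg.2 (hc1 i))
        (by ring)
      simpa [mul_comm] using this
    have h2 := mul_le_mul_of_nonneg_left hcv (hp0 i)
    have h3 := add_one_le_exp ((exp s - 1) * (c i * p i))
    nlinarith

theorem ch_tail {ι : Type} [Fintype ι] [DecidableEq ι] (p c : ι → ℝ)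
    (hp0 : ∀ i, 0 ≤ p i) (hp1 : ∀ i, p i ≤ 1) (hc0 : ∀ i, 0 ≤ c i) (hc1 : ∀ i, c i ≤ 1)
    (s a b : ℝ) (h : (exp s - 1) * ∑ i, c i * p i + a ≤ b) :
    ∑ S ∈ (univ : Finset ι).powerset,
      ((∏ i ∈ S, p i) * ∏ i ∈ univ \ S, (1 - p i)) * exp (s * ∑ i ∈ S, c i + a) ≤ exp b := by
  have h1 : ∀ S : Finset ι,
      ((∏ i ∈ S, p i) * ∏ i ∈ univ \ S, (1 - p i)) * exp (s * ∑ i ∈ S, c i + a)
      = (((∏ i ∈ S, p i) * ∏ i ∈ univ \ S, (1 - p i)) * exp (s * ∑ i ∈ S, c i)) * exp a := by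
    intro S
    rw [Real.exp_add]
    ring
  rw [Finset.sum_congr rfl (fun S _ => h1 S), ← Finset.sum_mul]
  calc _ ≤ exp ((exp s - 1) * ∑ i, c i * p i) * exp a :=
        mul_le_mul_of_nonneg_right (ch_mgf p c hp0 hp1 hc0 hc1 s) (exp_pos a).le
    _ ≤ exp b := by
        rw [← Real.exp_add]
        exact exp_le_exp.2 h

theorem chern {ι τ : Type} [Fintype ι] (J : Finset τ) (p : ι → ℝ) (c : τ → ι → ℝ)
    (hp0 : ∀ i, 0 ≤ p i) (hp1 : ∀ i, p i ≤ 1) (hc0 : ∀ j i, 0 ≤ c j i) (hc1 : ∀ j i, c j i ≤ 1)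
    {η lo hi : ℝ} (hη : 0 < η) (hη1 : η ≤ 1) (hlo : 0 ≤ lo)
    (hl : ∀ j ∈ J, lo ≤ ∑ i, c j i * p i) (hh : ∀ j ∈ J, ∑ i, c j i * p i ≤ hi)
    (hJ : 2 * (J.card : ℝ) * exp (-(η ^ 2 * lo / 4)) < 1) :
    ∃ S : Finset ι, (∀ i ∈ S, 0 < p i) ∧
      ∀ j ∈ J, (1 - η) * lo ≤ ∑ i ∈ S, c j i ∧ ∑ i ∈ S, c j i ≤ (1 + η) * hi := by
  classical
  obtain ⟨t, rfl⟩ : ∃ t, η = 2 * t := ⟨η / 2, by ring⟩
  have ht0 : 0 < t := by linarith
  have ht1 : t ≤ 1 / 2 := by linarith
  have e1 : exp t - 1 ≤ t + t ^ 2 := by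
    have := (abs_le.1 (Real.abs_exp_sub_one_sub_id_le (x := t)
      (by rw [abs_of_pos ht0]; linarith))).2
    linarith
  have e2 : exp (-t) - 1 ≤ -t + t ^ 2 := by
    have := (abs_le.1 (Real.abs_exp_sub_one_sub_id_le (x := -t)
      (by rw [abs_neg, abs_of_pos ht0]; linarith))).2
    nlinarith
  set W : Finset ι → ℝ := fun S => (∏ i ∈ S, p i) * ∏ i ∈ univ \ S, (1 - p i) with hW
  set U : τ → Finset ι → ℝ := fun j S => exp (t * ∑ i ∈ S, c j i + -(t * ((1 + 2 * t) * hi)))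
    with hU
  set L : τ → Finset ι → ℝ := fun j S => exp (-t * ∑ i ∈ S, c j i + t * ((1 - 2 * t) * lo))
    with hL
  have hW0 : ∀ S, 0 ≤ W S := fun S =>
    mul_nonneg (Finset.prod_nonneg fun i _ => hp0 i)
      (Finset.prod_nonneg fun i _ => sub_nonneg.2 (hp1 i))
  have hW1 : ∑ S ∈ (univ : Finset ι).powerset, W S = 1 := by
    simp only [hW]
    rw [← Finset.prod_add]
    simp
  have hUb : ∀ j ∈ J, ∑ S ∈ (univ : Finset ι).powerset, W S * U j S
      ≤ exp (-((2 * t) ^ 2 * lo / 4)) := by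
    intro j hj
    refine ch_tail p (c j) hp0 hp1 (hc0 j) (hc1 j) t _ _ ?_
    have a1 := hl j hj
    have a2 := hh j hj
    have a3 := mul_le_mul_of_nonneg_right e1 (hlo.trans a1)
    have a4 := mul_le_mul_of_nonneg_left a2 (show 0 ≤ t + t ^ 2 by positivity)
    have a5 := mul_le_mul_of_nonneg_left (a1.trans a2) (show 0 ≤ t ^ 2 by positivity)
    nlinarith
  have hLb : ∀ j ∈ J, ∑ S ∈ (univ : Finset ι).powerset, W S * L j S
      ≤ exp (-((2 * t) ^ 2 * lo / 4)) := by
    intro j hj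
    refine ch_tail p (c j) hp0 hp1 (hc0 j) (hc1 j) (-t) _ _ ?_
    have a1 := hl j hj
    have a3 := mul_le_mul_of_nonneg_right e2 (hlo.trans a1)
    have a4 := mul_le_mul_of_nonneg_left a1 (show 0 ≤ t - t ^ 2 by nlinarith)
    nlinarith
  have hlt : ∑ S ∈ (univ : Finset ι).powerset, W S * ∑ j ∈ J, (U j S + L j S)
      < ∑ S ∈ (univ : Finset ι).powerset, W S := by
    rw [hW1]
    calc ∑ S ∈ (univ : Finset ι).powerset, W S * ∑ j ∈ J, (U j S + L j S)
        = ∑ j ∈ J, (∑ S ∈ (univ : Finset ι).powerset, W S * U j S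
            + ∑ S ∈ (univ : Finset ι).powerset, W S * L j S) := by
          simp only [Finset.mul_sum, mul_add, ← Finset.sum_add_distrib]
          exact Finset.sum_comm
      _ ≤ ∑ _j ∈ J, 2 * exp (-((2 * t) ^ 2 * lo / 4)) :=
          Finset.sum_le_sum fun j hj => by
            have := hUb j hj
            have := hLb j hj
            linarith
      _ < 1 := by
          rw [Finset.sum_const, nsmul_eq_mul]
          linarith
  obtain ⟨S, -, hS⟩ := Finset.exists_lt_of_sum_lt hlt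
  have hpos : ∀ j S, 0 < U j S ∧ 0 < L j S := fun j S => ⟨exp_pos _, exp_pos _⟩
  have hWS : 0 < W S := by
    rcases (hW0 S).eq_or_lt with h | h
    · rw [← h] at hS
      simp at hS
    · exact h
  have hsum : ∑ j ∈ J, (U j S + L j S) < 1 := by
    by_contra hcon
    have := mul_le_mul_of_nonneg_left (not_lt.1 hcon) hWS.le
    linarith
  refine ⟨S, fun i hi => ?_, fun j hj => ?_⟩
  · rcases (hp0 i).eq_or_lt with h | h
    · exfalso
      have : W S = 0 := by
        simp only [hW]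
        rw [Finset.prod_eq_zero hi h.symm, zero_mul]
      linarith
    · exact h
  · have hle : U j S + L j S ≤ ∑ j ∈ J, (U j S + L j S) :=
      Finset.single_le_sum (f := fun j => U j S + L j S)
        (fun j _ => (add_pos (hpos j S).1 (hpos j S).2).le) hj
    have hu : U j S < 1 := by have := (hpos j S).2; linarith
    have hl' : L j S < 1 := by have := (hpos j S).1; linarith
    have hu' := Real.exp_lt_one_iff.1 hu
    have hl'' := Real.exp_lt_one_iff.1 hl'
    constructor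
    · by_contra hcon
      have := mul_lt_mul_of_pos_left (not_le.1 hcon) ht0
      linarith
    · by_contra hcon
      have := mul_lt_mul_of_pos_left (not_le.1 hcon) ht0
      linarith

end Pool.Agent.Work.MP_78fef3_co.L
end

-- part Round
section
namespace Pool.Agent.Work.MP_78fef3_co.L

open Finset Real

theorem rd_sum {V : Type} [Fintype V] [DecidableEq V] (v : V) (f : Sym2 V → ℝ) :
    ∑ e : Sym2 V, (if v ∈ e then (1 : ℝ) else 0) * f e = ∑ u, f s(v, u) := by
  have h1 : (univ.filter fun e : Sym2 V => v ∈ e) = univ.image fun u => s(v, u) := by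
    ext e
    simp only [mem_filter, mem_univ, true_and, mem_image]
    rw [Sym2.mem_iff_exists]
    exact ⟨fun ⟨u, h⟩ => ⟨u, h.symm⟩, fun ⟨u, h⟩ => ⟨u, h.symm⟩⟩
  have h2 : ∑ e : Sym2 V, (if v ∈ e then (1 : ℝ) else 0) * f e =
      ∑ e ∈ univ.filter fun e : Sym2 V => v ∈ e, f e := by
    rw [sum_filter]
    refine sum_congr rfl fun e _ => ?_
    split_ifs <;> simp
  rw [h2, h1, sum_image fun a _ b _ h => Sym2.congr_right.1 h]

theorem round {V : Type} [Fintype V] (G : SimpleGraph V) {η lo hi : ℝ} (hη : 0 < η) (hη1 : η < 1)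
    (hlo : 0 < lo) (hS : Sol G lo hi)
    (hn : 2 * (Fintype.card V : ℝ) * exp (-(η ^ 2 * ((1 - η) * lo) / 4)) < 1) :
    ∃ H : G.Subgraph, H.verts.Nonempty ∧ ∀ x ∈ H.verts,
      (1 - η) ^ 2 * lo ≤ ((H.neighborSet x).ncard : ℝ) ∧
        ((H.neighborSet x).ncard : ℝ) ≤ (1 + η) ^ 2 * hi := by
  classical
  obtain ⟨θ, w, hA, ⟨v₀, hv₀⟩, hl⟩ := hS
  have hlo' : 0 < (1 - η) * lo := mul_pos (sub_pos.2 hη1) hlo
  have hcard : ∀ J : Finset V, 2 * (J.card : ℝ) * exp (-(η ^ 2 * ((1 - η) * lo) / 4)) < 1 := by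
    intro J
    refine lt_of_le_of_lt ?_ hn
    have : (J.card : ℝ) ≤ Fintype.card V := by exact_mod_cast card_le_univ J
    gcongr
  have hdg : ∀ v, ∑ u, w v u * θ u = dg θ w v := fun v => sum_congr rfl fun u _ => mul_comm _ _
  obtain ⟨S, hS0, hS1⟩ := chern (univ.filter fun v => 0 < θ v) θ (fun v u => w v u) hA.t0 hA.t1
    hA.w0 hA.w1 (lo := lo) (hi := hi) hη hη1.le hlo.le
    (fun j hj => by rw [hdg]; exact hl j (mem_filter.1 hj).2)
    (fun j hj => by rw [hdg]; exact hA.cap j (mem_filter.1 hj).2)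
    (by
      refine lt_of_le_of_lt ?_ (hcard (univ.filter fun v => 0 < θ v))
      have h1 : (1 - η) * lo ≤ lo := by nlinarith
      gcongr)
  have hne : S.Nonempty := by
    rw [nonempty_iff_ne_empty]
    rintro rfl
    have := (hS1 v₀ (mem_filter.2 ⟨mem_univ _, hv₀⟩)).1
    rw [sum_empty] at this
    linarith
  let p : Sym2 V → ℝ := Sym2.lift ⟨fun u v => if u ∈ S ∧ v ∈ S then w u v else 0, fun u v => by
    simp only [and_comm, hA.sy u v]⟩
  have hp : ∀ u v, p s(u, v) = if u ∈ S ∧ v ∈ S then w u v else 0 := fun u v => rfl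
  have hsum : ∀ v ∈ S, ∑ e : Sym2 V, (if v ∈ e then (1 : ℝ) else 0) * p e = ∑ u ∈ S, w v u := by
    intro v hv
    rw [rd_sum]
    simp only [hp, hv, true_and]
    rw [← sum_filter]
    congr 1
    ext u
    simp
  obtain ⟨T, hT0, hT1⟩ := chern S p (fun v e => if v ∈ e then (1 : ℝ) else 0)
    (fun e => by
      induction e using Sym2.ind with
      | _ u v => rw [hp]; split_ifs; exacts [hA.w0 u v, le_rfl])
    (fun e => by
      induction e using Sym2.ind with
      | _ u v => rw [hp]; split_ifs; exacts [hA.w1 u v, zero_le_one])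
    (fun v e => by split_ifs; exacts [zero_le_one, le_rfl])
    (fun v e => by split_ifs; exacts [le_rfl, zero_le_one])
    (lo := (1 - η) * lo) (hi := (1 + η) * hi) hη hη1.le hlo'.le
    (fun j hj => by
      rw [hsum j hj]; exact (hS1 j (mem_filter.2 ⟨mem_univ _, hS0 j hj⟩)).1)
    (fun j hj => by
      rw [hsum j hj]; exact (hS1 j (mem_filter.2 ⟨mem_univ _, hS0 j hj⟩)).2)
    (hcard S)
  have hpos : ∀ u v, s(u, v) ∈ T → u ∈ S ∧ G.Adj u v := by
    intro u v h
    have h1 := hT0 _ h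
    rw [hp] at h1
    split_ifs at h1 with h2
    · refine ⟨h2.1, by_contra fun h3 => ?_⟩
      rw [hA.ad u v h3] at h1
      exact lt_irrefl _ h1
    · exact absurd h1 (lt_irrefl _)
  let H : G.Subgraph :=
    { verts := (S : Set V)
      Adj := fun u v => s(u, v) ∈ T
      adj_sub := fun {u v} h => (hpos u v h).2
      edge_vert := fun {u v} h => (hpos u v h).1
      symm := ⟨fun u v h => by rwa [Sym2.eq_swap]⟩ }
  refine ⟨H, hne, fun x hx => ?_⟩
  have hN : H.neighborSet x = ((univ.filter fun u => s(x, u) ∈ T : Finset V) : Set V) := by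
    ext u
    simp only [coe_filter, mem_univ, true_and, Set.mem_ofPred_eq]
    rfl
  have hc : ((H.neighborSet x).ncard : ℝ) = ∑ e ∈ T, if x ∈ e then (1 : ℝ) else 0 := by
    rw [hN, Set.ncard_coe_finset, card_filter]
    push_cast
    rw [← rd_sum x fun e => if e ∈ T then (1 : ℝ) else 0]
    simp only [mul_ite, mul_one, mul_zero]
    rw [← sum_filter]
    congr 1
    ext e
    simp
  have := hT1 x hx
  rw [hc]
  constructor
  · linarith [this.1]
  · linarith [this.2]

end Pool.Agent.Work.MP_78fef3_co.L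
end

-- part Ent
section
namespace Pool.Agent.Work.MP_78fef3_co.L

open Finset Real

theorem en_cont : Continuous psi := by
  have : psi = fun x => x - x * log x := rfl
  rw [this]
  exact continuous_id.sub Real.continuous_mul_log

theorem en_le_one {y : ℝ} (hy : 0 ≤ y) : psi y ≤ 1 := by
  unfold psi
  rcases hy.eq_or_lt with h | h
  · rw [← h]; simp
  · have h1 := Real.one_sub_inv_le_log_of_pos h
    have h2 : y * (1 - y⁻¹) ≤ y * log y := mul_le_mul_of_nonneg_left h1 hy
    have h3 : y * (1 - y⁻¹) = y - 1 := by field_simp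
    linarith

theorem en_min {y : ℝ} (hy : 0 ≤ y) : psi y ≤ psi (min 1 y) := by
  rcases le_total 1 y with h | h
  · rw [min_eq_left h]
    have : psi 1 = 1 := by simp [psi]
    rw [this]
    exact en_le_one hy
  · rw [min_eq_right h]

theorem en_scale {w a b : ℝ} (ha : 0 < a) (hb : 0 < b) :
    a * b * psi (w / (a * b)) = psi w + w * (log a + log b) := by
  unfold psi
  by_cases hw : w = 0
  · simp [hw]
  · rw [Real.log_div hw (by positivity), Real.log_mul ha.ne' hb.ne']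
    field_simp
    ring

/-- The entropy potential. -/
noncomputable def en_Om {V : Type} [Fintype V] (lo : ℝ) (p : (V → ℝ) × (V → V → ℝ)) : ℝ :=
  ∑ u, ∑ v, p.1 u * p.1 v * psi (p.2 u v) - 2 * lo * ∑ v, p.1 v

theorem en_max {V : Type} [Fintype V] (G : SimpleGraph V) (lo hi : ℝ)
    (q : (V → ℝ) × (V → V → ℝ)) (hq : Adm G hi q.1 q.2) :
    ∃ p : (V → ℝ) × (V → V → ℝ), Adm G hi p.1 p.2 ∧
      ∀ r : (V → ℝ) × (V → V → ℝ), Adm G hi r.1 r.2 → en_Om lo r ≤ en_Om lo p := by
  have hc : Continuous (en_Om (V := V) lo) := by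
    unfold en_Om
    have := en_cont
    fun_prop
  have hK : IsCompact {p : (V → ℝ) × (V → V → ℝ) | Adm G hi p.1 p.2} := by
    refine (isCompact_Icc (a := (0 : (V → ℝ) × (V → V → ℝ))) (b := 1)).of_isClosed_subset ?_ ?_
    · have : {p : (V → ℝ) × (V → V → ℝ) | Adm G hi p.1 p.2} =
          (⋂ v, {p | 0 ≤ p.1 v}) ∩ (⋂ v, {p | p.1 v ≤ 1}) ∩ (⋂ u, ⋂ v, {p | 0 ≤ p.2 u v}) ∩
          (⋂ u, ⋂ v, {p | p.2 u v ≤ 1}) ∩ (⋂ u, ⋂ v, {p | p.2 u v = p.2 v u}) ∩
          (⋂ u, ⋂ v, ⋂ _ : ¬ G.Adj u v, {p | p.2 u v = 0}) ∩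
          (⋂ v, {p | p.1 v * ∑ u, p.1 u * p.2 v u ≤ p.1 v * hi}) := by
        ext p
        simp only [Set.mem_ofPred_eq, Set.mem_inter_iff, Set.mem_iInter]
        constructor
        · intro h
          refine ⟨⟨⟨⟨⟨⟨h.t0, h.t1⟩, h.w0⟩, h.w1⟩, h.sy⟩, h.ad⟩, fun v => ?_⟩
          rcases (h.t0 v).eq_or_lt with h0 | h0
          · rw [← h0]; simp
          · exact mul_le_mul_of_nonneg_left (h.cap v h0) h0.le
        · rintro ⟨⟨⟨⟨⟨⟨a, b⟩, c⟩, d⟩, e⟩, f⟩, g⟩
          exact ⟨a, b, c, d, e, f, fun v hv => le_of_mul_le_mul_left (g v) hv⟩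
      rw [this]
      refine IsClosed.inter (IsClosed.inter (IsClosed.inter (IsClosed.inter (IsClosed.inter
        (IsClosed.inter ?_ ?_) ?_) ?_) ?_) ?_) ?_
      · exact isClosed_iInter fun v => isClosed_le (by fun_prop) (by fun_prop)
      · exact isClosed_iInter fun v => isClosed_le (by fun_prop) (by fun_prop)
      · exact isClosed_iInter fun u => isClosed_iInter fun v =>
          isClosed_le (by fun_prop) (by fun_prop)
      · exact isClosed_iInter fun u => isClosed_iInter fun v =>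
          isClosed_le (by fun_prop) (by fun_prop)
      · exact isClosed_iInter fun u => isClosed_iInter fun v =>
          isClosed_eq (by fun_prop) (by fun_prop)
      · exact isClosed_iInter fun u => isClosed_iInter fun v => isClosed_iInter fun _ =>
          isClosed_eq (by fun_prop) (by fun_prop)
      · exact isClosed_iInter fun v => isClosed_le (by fun_prop) (by fun_prop)
    · intro p hp
      exact ⟨⟨fun v => hp.t0 v, fun u v => hp.w0 u v⟩, ⟨fun v => hp.t1 v, fun u v => hp.w1 u v⟩⟩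
  obtain ⟨p, hp, hm⟩ := hK.exists_isMaxOn ⟨q, hq⟩ hc.continuousOn
  exact ⟨p, hp, fun r hr => hm hr⟩

theorem en_step {V : Type} [Fintype V] (G : SimpleGraph V) {lo hi : ℝ} (hlo : 0 < lo)
    (hlt : lo < hi) (θ : V → ℝ) (w : V → V → ℝ) (h : Adm G hi θ w) (v : V) (hv : 0 < θ v)
    (hd : dg θ w v < lo) :
    ∃ r : (V → ℝ) × (V → V → ℝ), Adm G hi r.1 r.2 ∧ en_Om lo (θ, w) < en_Om lo r := by
  classical
  have hd0 : 0 ≤ dg θ w v := Finset.sum_nonneg fun u _ => mul_nonneg (h.t0 u) (h.w0 v u)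
  obtain ⟨t, ht0, ht1, htd⟩ : ∃ t : ℝ, 0 < t ∧ t < 1 ∧ dg θ w v < lo * t := by
    refine ⟨(lo + dg θ w v) / (2 * lo), by positivity, ?_, ?_⟩
    · rw [div_lt_one (by positivity)]; linarith
    · have : lo * ((lo + dg θ w v) / (2 * lo)) = (lo + dg θ w v) / 2 := by field_simp
      rw [this]; linarith
  obtain ⟨c, hc⟩ : ∃ c : V → ℝ, ∀ u, c u = if u = v then t else 1 := ⟨_, fun _ => rfl⟩
  have c0 : ∀ u, 0 < c u := fun u => by rw [hc]; split_ifs <;> positivity
  have c1 : ∀ u, c u ≤ 1 := fun u => by rw [hc]; split_ifs <;> linarith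
  have y0 : ∀ u x, 0 ≤ w u x / (c u * c x) := fun u x =>
    div_nonneg (h.w0 u x) (mul_pos (c0 u) (c0 x)).le
  refine ⟨(fun u => c u * θ u, fun u x => min 1 (w u x / (c u * c x))),
    ⟨?_, ?_, ?_, ?_, ?_, ?_, ?_⟩, ?_⟩
  · exact fun u => mul_nonneg (c0 u).le (h.t0 u)
  · exact fun u => mul_le_one₀ (c1 u) (h.t0 u) (h.t1 u)
  · exact fun u x => le_min zero_le_one (y0 u x)
  · exact fun u x => min_le_left _ _
  · intro u x
    simp only [h.sy u x, mul_comm (c u) (c x)]
  · intro u x hux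
    simp [h.ad u x hux]
  · intro u hu
    have hu' : 0 < θ u := (mul_pos_iff_of_pos_left (c0 u)).1 hu
    have h1 : dg (fun u => c u * θ u) (fun u x => min 1 (w u x / (c u * c x))) u ≤
        dg θ w u / c u := by
      unfold dg
      rw [Finset.sum_div]
      refine Finset.sum_le_sum fun x _ => ?_
      have h2 : c x * θ x * (w u x / (c u * c x)) = θ x * w u x / c u := by
        have := (c0 u).ne'
        have := (c0 x).ne'
        field_simp
      rw [← h2]
      exact mul_le_mul_of_nonneg_left (min_le_right _ _) (mul_nonneg (c0 x).le (h.t0 x))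
    refine h1.trans ?_
    by_cases huv : u = v
    · rw [hc, if_pos huv, huv, div_le_iff₀ ht0]
      nlinarith
    · rw [hc, if_neg huv, div_one]
      exact h.cap u hu'
  · have hl : ∀ u, log (c u) = if u = v then log t else 0 := fun u => by
      rw [hc]; split_ifs <;> simp
    have s1 : ∑ u, c u * θ u = ∑ u, θ u - (1 - t) * θ v := by
      have : ∀ u, c u * θ u = θ u - if u = v then (1 - t) * θ v else 0 := fun u => by
        rw [hc]
        split_ifs with huv
        · rw [huv]; ring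
        · ring
      simp only [this, Finset.sum_sub_distrib, Finset.sum_ite_eq', Finset.mem_univ, if_true]
    have s2 : ∑ u, ∑ x, θ u * θ x * (w u x * log (c u)) = θ v * log t * dg θ w v := by
      have : ∀ u, ∑ x, θ u * θ x * (w u x * log (c u)) =
          if u = v then θ v * log t * dg θ w v else 0 := fun u => by
        rw [hl]
        split_ifs with huv
        · rw [huv, dg, Finset.mul_sum]
          exact Finset.sum_congr rfl fun x _ => by ring
        · simp
      simp only [this, Finset.sum_ite_eq', Finset.mem_univ, if_true]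
    have s3 : ∑ u, ∑ x, θ u * θ x * (w u x * log (c x)) = θ v * log t * dg θ w v := by
      rw [Finset.sum_comm, ← s2]
      exact Finset.sum_congr rfl fun u _ => Finset.sum_congr rfl fun x _ => by
        rw [h.sy x u]; ring
    have s4 : ∑ u, ∑ x, θ u * θ x * psi (w u x) + 2 * (θ v * log t * dg θ w v) ≤
        ∑ u, ∑ x, c u * θ u * (c x * θ x) * psi (min 1 (w u x / (c u * c x))) := by
      have e : ∑ u, ∑ x, θ u * θ x * psi (w u x) + 2 * (θ v * log t * dg θ w v) =
          ∑ u, ∑ x, (θ u * θ x * psi (w u x) + (θ u * θ x * (w u x * log (c u)) +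
            θ u * θ x * (w u x * log (c x)))) := by
        simp only [Finset.sum_add_distrib]
        rw [s2, s3]; ring
      rw [e]
      refine Finset.sum_le_sum fun u _ => Finset.sum_le_sum fun x _ => ?_
      have a1 := en_scale (w := w u x) (c0 u) (c0 x)
      have a2 := mul_le_mul_of_nonneg_left (en_min (y0 u x))
        (mul_nonneg (mul_nonneg (c0 u).le (h.t0 u)) (mul_nonneg (c0 x).le (h.t0 x)))
      have a3 : c u * θ u * (c x * θ x) * psi (w u x / (c u * c x)) =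
          θ u * θ x * (c u * c x * psi (w u x / (c u * c x))) := by ring
      rw [a3, a1] at a2
      refine le_trans (le_of_eq ?_) a2
      ring
    have g1 : 0 < log t * dg θ w v + lo * (1 - t) := by
      have b1 := mul_le_mul_of_nonneg_right (Real.one_sub_inv_le_log_of_pos ht0) hd0
      have b2 : (1 - t⁻¹) * dg θ w v + lo * (1 - t) = (1 - t) * (lo * t - dg θ w v) / t := by
        field_simp
        ring
      have b3 : 0 < (1 - t) * (lo * t - dg θ w v) / t :=
        div_pos (mul_pos (by linarith) (by linarith)) ht0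
      linarith
    have g2 := mul_pos hv g1
    unfold en_Om
    simp only []
    rw [s1]
    nlinarith

theorem ent {V : Type} [Fintype V] (G : SimpleGraph V) {lo hi : ℝ} (hlo : 0 < lo) (hlt : lo < hi)
    (h : Pos G lo hi) : Sol G lo hi := by
  obtain ⟨θ, w, ha, hp⟩ := h
  obtain ⟨p, hp1, hm⟩ := en_max G lo hi (θ, w) ha
  refine ⟨p.1, p.2, hp1, ?_, fun v hv => ?_⟩
  · by_contra hn
    have h0 : ∀ v, p.1 v = 0 := fun v =>
      le_antisymm (not_lt.1 fun hv => hn ⟨v, hv⟩) (hp1.t0 v)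
    have h1 := hm (θ, w) ha
    have h2 : en_Om lo p = 0 := by simp [en_Om, h0]
    rw [h2] at h1
    unfold en_Om at h1
    simp only [] at h1
    linarith
  · by_contra hn
    obtain ⟨r, hr, hlt'⟩ := en_step G hlo hlt p.1 p.2 hp1 v hv (not_le.1 hn)
    exact absurd (hm r hr) (not_le.2 hlt')

end Pool.Agent.Work.MP_78fef3_co.L
end

-- part Gf
section
namespace Pool.Agent.Work.MP_78fef3_co.L

open Finset Real

theorem gf_low {C x : ℝ} (h1 : 1 ≤ x) (hx : x ≤ C) : Gf C x = x - 1 := by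
  unfold Gf
  split_ifs with a
  · linarith
  · rfl

theorem gf_high {C x : ℝ} (hC : 1 ≤ C) (hx : C < x) : Gf C x = C - 1 + C * log (x / C) := by
  unfold Gf
  rw [if_neg (by linarith), if_neg (by linarith)]

theorem gf_conc {C x y : ℝ} (hC : 1 ≤ C) (h1 : 1 ≤ x) (hxy : x ≤ y) :
    min 1 (C / y) * (y - x) ≤ Gf C y - Gf C x := by
  have hC0 : 0 < C := by linarith
  have hx0 : 0 < x := by linarith
  have hy0 : 0 < y := by linarith
  have hd : 0 ≤ y - x := by linarith
  rcases le_or_gt y C with hy | hy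
  · rw [gf_low (h1.trans hxy) hy, gf_low h1 (hxy.trans hy)]
    have := mul_le_mul_of_nonneg_right (min_le_left 1 (C / y)) hd
    linarith
  · have hm := mul_le_mul_of_nonneg_right (min_le_right 1 (C / y)) hd
    rcases le_or_gt x C with hx | hx
    · rw [gf_high hC hy, gf_low h1 hx]
      have hl := Real.one_sub_inv_le_log_of_pos (div_pos hy0 hC0)
      rw [inv_div] at hl
      have hl2 := mul_le_mul_of_nonneg_left hl hC0.le
      have hq : C / y ≤ 1 := (div_le_one hy0).2 hy.le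
      have hp : 0 ≤ (C - x) * (1 - C / y) := mul_nonneg (by linarith) (by linarith)
      have he : C / y * y = C := div_mul_cancel₀ C hy0.ne'
      nlinarith
    · rw [gf_high hC hy, gf_high hC hx, Real.log_div hy0.ne' hC0.ne', Real.log_div hx0.ne' hC0.ne']
      have hl := Real.one_sub_inv_le_log_of_pos (div_pos hy0 hx0)
      rw [inv_div, Real.log_div hy0.ne' hx0.ne'] at hl
      have hl2 := mul_le_mul_of_nonneg_left hl hC0.le
      have he : C / y * (y - x) = C * (1 - x / y) := by field_simp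
      linarith

theorem Gf_nonneg {C : ℝ} (hC : 1 ≤ C) (x : ℝ) : 0 ≤ Gf C x := by
  unfold Gf
  split_ifs with a b
  · exact le_rfl
  · linarith
  · have h : 0 ≤ log (x / C) := Real.log_nonneg ((one_le_div (by linarith)).2 (by linarith))
    have := mul_nonneg (show 0 ≤ C by linarith) h
    linarith

theorem Gf_mono {C : ℝ} (hC : 1 ≤ C) : Monotone (Gf C) := by
  intro x y hxy
  rcases le_or_gt x 1 with h | h
  · have : Gf C x = 0 := by unfold Gf; rw [if_pos h]
    rw [this]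
    exact Gf_nonneg hC y
  · have h1 := gf_conc hC h.le hxy
    have h2 : 0 ≤ min 1 (C / y) * (y - x) :=
      mul_nonneg (le_min zero_le_one (div_nonneg (by linarith) (by linarith))) (by linarith)
    linarith

theorem Gf_of_le_one {C x : ℝ} (hx : x ≤ 1) : Gf C x = 0 := by
  unfold Gf
  rw [if_pos hx]

theorem Kf_nonneg {C : ℝ} (hC : 1 ≤ C) (W x : ℝ) : 0 ≤ Kf C W x := by
  unfold Kf
  split_ifs with a
  · exact le_min zero_le_one (div_nonneg (by linarith) (by linarith [a.1]))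
  · exact le_rfl

theorem Kf_le_one (C W x : ℝ) : Kf C W x ≤ 1 := by
  unfold Kf
  split_ifs with a
  · exact min_le_left _ _
  · exact zero_le_one

theorem mul_Kf_le {C : ℝ} (hC : 1 ≤ C) (W x : ℝ) : x * Kf C W x ≤ C := by
  unfold Kf
  split_ifs with a
  · have hx : 0 < x := by linarith [a.1]
    have h := mul_le_mul_of_nonneg_left (min_le_right 1 (C / x)) hx.le
    have he : x * (C / x) = C := by field_simp
    linarith
  · rw [mul_zero]
    linarith

theorem Kf_eq_zero {C W x : ℝ} (h : ¬ (1 < x ∧ x ≤ W)) : Kf C W x = 0 := by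
  unfold Kf
  rw [if_neg h]

theorem Gf_step {C W η x D : ℝ} (hC : 1 ≤ C) (hη : 0 < η) (hD : 0 ≤ D) (hDx : D ≤ η * x) :
    Kf C W x * D / (1 + η) ≤
      Gf C (min (x + D) ((1 + η) * W)) - Gf C (min x ((1 + η) * W)) := by
  by_cases h : 1 < x ∧ x ≤ W
  · obtain ⟨h1, hW⟩ := h
    have hx0 : 0 < x := by linarith
    have hη1 : 0 < 1 + η := by linarith
    have ha : x + D ≤ (1 + η) * x := by linarith
    have hb : (1 + η) * x ≤ (1 + η) * W := mul_le_mul_of_nonneg_left hW hη1.le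
    rw [min_eq_left (ha.trans hb), min_eq_left (by linarith : x ≤ (1 + η) * W)]
    have hc := gf_conc hC h1.le (show x ≤ x + D by linarith)
    have hk : Kf C W x = min 1 (C / x) := by unfold Kf; rw [if_pos ⟨h1, hW⟩]
    have hm : min 1 (C / x) / (1 + η) ≤ min 1 (C / (x + D)) := by
      refine le_min ?_ ?_
      · rw [div_le_one hη1]
        linarith [min_le_left 1 (C / x)]
      · calc min 1 (C / x) / (1 + η) ≤ C / x / (1 + η) :=
            div_le_div_of_nonneg_right (min_le_right _ _) hη1.le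
          _ = C / ((1 + η) * x) := by rw [div_div, mul_comm]
          _ ≤ C / (x + D) := div_le_div_of_nonneg_left (by linarith) (by linarith) ha
    have h3 := mul_le_mul_of_nonneg_right hm hD
    rw [hk, mul_div_right_comm]
    rw [add_sub_cancel_left] at hc
    linarith
  · rw [Kf_eq_zero h, zero_mul, zero_div, sub_nonneg]
    exact Gf_mono hC (min_le_min_right _ (by linarith))

theorem Gf_psi {C W x : ℝ} (hC : 1 ≤ C) (h1 : 1 < x) (hW : x ≤ W) :
    x * psi (Kf C W x) = Gf C x + 1 := by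
  have hx0 : 0 < x := by linarith
  have hC0 : 0 < C := by linarith
  have hk : Kf C W x = min 1 (C / x) := by unfold Kf; rw [if_pos ⟨h1, hW⟩]
  rw [hk]
  rcases le_or_gt x C with hx | hx
  · rw [min_eq_left ((one_le_div hx0).2 hx), gf_low h1.le hx]
    simp [psi]
  · rw [min_eq_right ((div_le_one hx0).2 hx.le), gf_high hC hx, psi,
      Real.log_div hx0.ne' hC0.ne', Real.log_div hC0.ne' hx0.ne']
    field_simp
    ring

theorem psi_Kf_nonneg {C : ℝ} (hC : 1 ≤ C) (W x : ℝ) : 0 ≤ psi (Kf C W x) := by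
  have h0 := Kf_nonneg hC W x
  have h1 := Kf_le_one C W x
  have h2 := Real.log_nonpos h0 h1
  have h3 := mul_nonneg h0 (neg_nonneg.2 h2)
  unfold psi
  linarith

theorem psi_Kf_le {C W : ℝ} (hC : 1 ≤ C) (hW : 1 ≤ W) (x : ℝ) :
    psi (Kf C W x) ≤ (1 + log W) * Kf C W x := by
  by_cases h : 1 < x ∧ x ≤ W
  · obtain ⟨h1, hx⟩ := h
    have hx0 : 0 < x := by linarith
    have hW0 : 0 < W := by linarith
    have h0 := Kf_nonneg hC W x
    have hk : Kf C W x = min 1 (C / x) := by unfold Kf; rw [if_pos ⟨h1, hx⟩]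
    have hl : W⁻¹ ≤ Kf C W x := by
      rw [hk]
      refine le_min (inv_le_one_of_one_le₀ hW) ?_
      calc W⁻¹ ≤ x⁻¹ := inv_anti₀ hx0 hx
        _ = 1 / x := (one_div x).symm
        _ ≤ C / x := div_le_div_of_nonneg_right hC hx0.le
    have h2 := Real.log_le_log (inv_pos.2 hW0) hl
    rw [Real.log_inv] at h2
    have h3 := mul_le_mul_of_nonneg_left h2 h0
    unfold psi
    linarith
  · rw [Kf_eq_zero h]
    simp [psi]

theorem Gf_le {C W η : ℝ} (hC : 1 ≤ C) (hW : 1 ≤ W) (hη : 0 < η) (hη1 : η ≤ 1) (x : ℝ) :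
    Gf C (min x ((1 + η) * W)) ≤ C * (2 + log W) := by
  have hC0 : 0 < C := by linarith
  have hW0 : 0 < W := by linarith
  have hl : 0 ≤ log W := Real.log_nonneg hW
  have hy : min x ((1 + η) * W) ≤ 2 * W :=
    (min_le_right _ _).trans (mul_le_mul_of_nonneg_right (by linarith) hW0.le)
  refine (Gf_mono hC hy).trans ?_
  have hcl := mul_nonneg hC0.le hl
  rcases le_or_gt (2 * W) C with h | h
  · rw [gf_low (by linarith) h]
    linarith
  · rw [gf_high hC h]
    have h1 : log (2 * W / C) ≤ log (2 * W) :=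
      Real.log_le_log (by positivity) (div_le_self (by linarith) hC)
    rw [Real.log_mul two_ne_zero hW0.ne'] at h1
    have h2 : log 2 ≤ 2 - 1 := Real.log_le_sub_one_of_pos two_pos
    have h3 : log (2 * W / C) ≤ 1 + log W := by linarith
    have h4 := mul_le_mul_of_nonneg_left h3 hC0.le
    linarith

end Pool.Agent.Work.MP_78fef3_co.L
end

-- part Riem
section
namespace Pool.Agent.Work.MP_78fef3_co.L

open Finset Real

/-- The primitive of `Gf C x / x ^ 2`. -/
noncomputable def rm_F (C x : ℝ) : ℝ :=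
  if x ≤ 1 then 0 else if x ≤ C then log x + 1 / x - 1 else 1 + log C - (C + Gf C x) / x

theorem rm_G2 {C x : ℝ} (h1 : 1 ≤ x) (h2 : x ≤ C) : Gf C x = x - 1 := by
  unfold Gf
  split_ifs with a
  · linarith
  · rfl

theorem rm_G3 {C x : ℝ} (hC : 1 ≤ C) (h : C ≤ x) : Gf C x = C - 1 + C * log (x / C) := by
  rcases h.eq_or_lt with rfl | h
  · rw [rm_G2 hC le_rfl, div_self (by linarith), log_one]; ring
  · unfold Gf
    rw [if_neg (by linarith), if_neg (by linarith)]

theorem rm_F1 {C x : ℝ} (h : x ≤ 1) : rm_F C x = 0 := by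
  unfold rm_F
  rw [if_pos h]

theorem rm_F2 {C x : ℝ} (h1 : 1 ≤ x) (h2 : x ≤ C) : rm_F C x = log x + 1 / x - 1 := by
  unfold rm_F
  split_ifs with a
  · obtain rfl : x = 1 := le_antisymm a h1
    simp
  · rfl

theorem rm_F3 {C x : ℝ} (hC : 1 ≤ C) (h : C ≤ x) :
    rm_F C x = 1 + log C - (C + Gf C x) / x := by
  rcases h.eq_or_lt with rfl | h
  · rw [rm_F2 hC le_rfl, rm_G2 hC le_rfl]
    have : C ≠ 0 := by linarith
    field_simp
    ring
  · unfold rm_F
    rw [if_neg (by linarith), if_neg (by linarith)]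

/-- The increment bound. -/
def rm_R (C u y : ℝ) : Prop := rm_F C y - rm_F C u ≤ Gf C y * (1 / u - 1 / y)

theorem rm_trans {C u m y : ℝ} (hC : 1 ≤ C) (hu : 0 < u) (hum : u ≤ m) (hmy : m ≤ y)
    (h1 : rm_R C u m) (h2 : rm_R C m y) : rm_R C u y := by
  unfold rm_R at *
  have a : 0 ≤ 1 / u - 1 / m := sub_nonneg.2 (one_div_le_one_div_of_le hu hum)
  have b := mul_le_mul_of_nonneg_right (Gf_mono hC hmy) a
  linarith

theorem rm_a {C u y : ℝ} (huy : u ≤ y) (hy : y ≤ 1) : rm_R C u y := by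
  unfold rm_R
  rw [rm_F1 hy, rm_F1 (huy.trans hy), Gf_of_le_one hy]
  simp

theorem rm_b {C u y : ℝ} (hu : 1 ≤ u) (huy : u ≤ y) (hy : y ≤ C) : rm_R C u y := by
  unfold rm_R
  have u0 : 0 < u := by linarith
  have y0 : 0 < y := by linarith
  rw [rm_F2 (hu.trans huy) hy, rm_F2 hu (huy.trans hy), rm_G2 (hu.trans huy) hy]
  have a := log_le_sub_one_of_pos (div_pos y0 u0)
  rw [log_div y0.ne' u0.ne'] at a
  have e : (y - 1) * (1 / u - 1 / y) = y / u - 1 - 1 / u + 1 / y := by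
    field_simp
    ring
  rw [e]
  linarith

theorem rm_c {C u y : ℝ} (hC : 1 ≤ C) (hu : C ≤ u) (huy : u ≤ y) : rm_R C u y := by
  unfold rm_R
  have C0 : 0 < C := by linarith
  have u0 : 0 < u := by linarith
  have y0 : 0 < y := by linarith
  rw [rm_F3 hC (hu.trans huy), rm_F3 hC hu, rm_G3 hC (hu.trans huy), rm_G3 hC hu,
    log_div y0.ne' C0.ne', log_div u0.ne' C0.ne']
  have a := log_le_sub_one_of_pos (div_pos u0 y0)
  rw [log_div u0.ne' y0.ne'] at a
  have b := mul_le_mul_of_nonneg_left a (div_pos C0 u0).le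
  have e : C / u * (u / y - 1) = C / y - C / u := by
    field_simp
  rw [e] at b
  have e2 : (C - 1 + C * (log y - log C)) * (1 / u - 1 / y) -
      (1 + log C - (C + (C - 1 + C * (log y - log C))) / y -
        (1 + log C - (C + (C - 1 + C * (log u - log C))) / u)) =
      C / y - C / u - C / u * (log u - log y) := by
    field_simp
    ring
  linarith

theorem rm_bc {C u y : ℝ} (hC : 1 ≤ C) (hu : 1 ≤ u) (huy : u ≤ y) : rm_R C u y := by
  rcases le_total y C with h | h
  · exact rm_b hu huy h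
  · rcases le_total u C with h' | h'
    · exact rm_trans hC (by linarith) h' h (rm_b hu h' le_rfl) (rm_c hC le_rfl h)
    · exact rm_c hC h' huy

theorem rm_all {C u y : ℝ} (hC : 1 ≤ C) (hu : 0 < u) (huy : u ≤ y) : rm_R C u y := by
  rcases le_total y 1 with h | h
  · exact rm_a huy h
  · rcases le_total u 1 with h' | h'
    · exact rm_trans hC hu h' h (rm_a h' le_rfl) (rm_bc hC le_rfl h)
    · exact rm_bc hC h' huy

theorem rm_step {C q a W0 W : ℝ} (hC : 1 ≤ C) (hq : 1 < q) (ha : 0 < a) (h0 : 0 < W0)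
    (hW : W0 ≤ W) :
    rm_F C (min a W0) - rm_F C (min (a / q) W0) ≤ (q - 1) * (Gf C (min a W) / a) := by
  have q0 : 0 < q := by linarith
  have haq : a / q ≤ a := div_le_self ha.le hq.le
  have h1 : rm_R C (min (a / q) W0) (min a W0) :=
    rm_all hC (lt_min (div_pos ha q0) h0) (min_le_min haq le_rfl)
  have h2 : 1 / min (a / q) W0 - 1 / min a W0 ≤ (q - 1) / a := by
    have e : (q - 1) / a = 1 / (a / q) - 1 / a := by
      field_simp
    have p : 1 / a ≤ 1 / min a W0 := one_div_le_one_div_of_le (lt_min ha h0) (min_le_left _ _)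
    rcases le_total (a / q) W0 with h | h
    · rw [min_eq_left h, e]
      linarith
    · rw [min_eq_right h, min_eq_right (h.trans haq), sub_self]
      exact div_nonneg (by linarith) ha.le
  have h3 : Gf C (min a W0) ≤ Gf C (min a W) := Gf_mono hC (min_le_min le_rfl hW)
  calc _ ≤ Gf C (min a W0) * (1 / min (a / q) W0 - 1 / min a W0) := h1
    _ ≤ Gf C (min a W0) * ((q - 1) / a) := mul_le_mul_of_nonneg_left h2 (Gf_nonneg hC _)
    _ ≤ Gf C (min a W) * ((q - 1) / a) :=
        mul_le_mul_of_nonneg_right h3 (div_nonneg (by linarith) ha.le)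
    _ = _ := by ring

theorem rm_tel {C q x W0 W : ℝ} (hC : 1 ≤ C) (hq : 1 < q) (hx : 0 < x) (h0 : 0 < W0)
    (hW : W0 ≤ W) (J : ℕ) :
    rm_F C (min x W0) - rm_F C (min (x / q ^ J) W0) ≤
      (q - 1) * ∑ j ∈ range J, Gf C (min (x / q ^ j) W) / (x / q ^ j) := by
  induction J with
  | zero => simp
  | succ J ih =>
    have q0 : 0 < q := by linarith
    have h := rm_step (a := x / q ^ J) hC hq (div_pos hx (pow_pos q0 J)) h0 hW
    rw [sum_range_succ, mul_add, pow_succ, ← div_div]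
    linarith

theorem rm_lim {C η : ℝ} (hC : 1 ≤ C) (hη : 0 < η) :
    ∃ W0 : ℝ, 1 ≤ W0 ∧ 1 + log C - η / 2 ≤ rm_F C W0 := by
  obtain ⟨s, hs1, hs2⟩ : ∃ s : ℝ, 1 ≤ s ∧ 8 ≤ η * s := by
    refine ⟨1 + 8 / η, by have := div_pos (by norm_num : (0 : ℝ) < 8) hη; linarith, ?_⟩
    have : η * (1 + 8 / η) = η + 8 := by field_simp
    linarith
  have C0 : 0 < C := by linarith
  have s0 : 0 < s := by linarith
  have hs3 : 1 ≤ s ^ 2 := one_le_pow₀ hs1
  have hle : C ≤ C * s ^ 2 := le_mul_of_one_le_right C0.le hs3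
  refine ⟨C * s ^ 2, hC.trans hle, ?_⟩
  rw [rm_F3 hC hle, rm_G3 hC hle, mul_div_cancel_left₀ _ C0.ne', log_pow]
  have a := log_le_sub_one_of_pos s0
  have b : (C + (C - 1 + C * ((2 : ℕ) * log s))) / (C * s ^ 2) ≤ η / 2 := by
    rw [div_le_iff₀ (by positivity)]
    push_cast
    have c1 : C * log s ≤ C * (s - 1) := mul_le_mul_of_nonneg_left a C0.le
    have c2 : C * s * 8 ≤ C * s * (η * s) := mul_le_mul_of_nonneg_left hs2 (by positivity)
    have c3 : 0 < C * s := by positivity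
    nlinarith
  linarith

theorem riem {C η : ℝ} (hC : 1 ≤ C) (hη : 0 < η) :
    ∃ q W0 : ℝ, 1 < q ∧ q ≤ 2 ∧ 1 ≤ W0 ∧ ∀ (W x : ℝ) (J : ℕ), W0 ≤ W → W0 ≤ x → x / q ^ J ≤ 1 →
      1 + log C - η ≤ log q * ∑ j ∈ range J, Gf C (min (x / q ^ j) W) / (x / q ^ j) := by
  obtain ⟨W0, h1, h2⟩ := rm_lim hC hη
  have hA : 0 < 1 + log C := by have := log_nonneg hC; linarith
  obtain ⟨δ, d0, d1, d2⟩ : ∃ δ : ℝ, 0 < δ ∧ δ ≤ 1 ∧ (1 + log C) * δ ≤ η / 2 := by
    refine ⟨min 1 (η / 2 / (1 + log C)), lt_min one_pos (by positivity), min_le_left _ _, ?_⟩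
    rw [mul_comm, ← le_div_iff₀ hA]
    exact min_le_right _ _
  refine ⟨1 + δ, W0, by linarith, by linarith, h1, fun W x J hW hx hJ => ?_⟩
  have q0 : 0 < 1 + δ := by linarith
  have x0 : 0 < x := by linarith
  have t := rm_tel (q := 1 + δ) hC (by linarith) x0 (by linarith : 0 < W0) hW J
  rw [min_eq_right hx, rm_F1 ((min_le_left _ _).trans hJ), sub_zero] at t
  set S := ∑ j ∈ range J, Gf C (min (x / (1 + δ) ^ j) W) / (x / (1 + δ) ^ j) with hS
  have S0 : 0 ≤ S := sum_nonneg fun j _ => div_nonneg (Gf_nonneg hC _) (by positivity)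
  have l : 1 + δ - 1 ≤ (1 + δ) * log (1 + δ) := by
    have a := one_sub_inv_le_log_of_pos q0
    have b := mul_le_mul_of_nonneg_left a q0.le
    rw [mul_sub, mul_inv_cancel₀ q0.ne', mul_one] at b
    exact b
  have m := mul_le_mul_of_nonneg_right l S0
  have hd : 0 < η * δ := mul_pos hη d0
  refine le_of_mul_le_mul_left ?_ q0
  nlinarith

end Pool.Agent.Work.MP_78fef3_co.L
end

-- part Test
section
namespace Pool.Agent.Work.MP_78fef3_co.L

open Finset Real

theorem ts_dbl {V : Type} [Fintype V] [DecidableEq V] (E : Finset (V × V)) (f : V → V → ℝ) :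
    ∑ p ∈ E, f p.1 p.2 = ∑ u, ∑ v, if (u, v) ∈ E then f u v else 0 := by
  rw [← Fintype.sum_prod_type' (fun u v => if (u, v) ∈ E then f u v else 0)]
  simp only [Prod.mk.eta]
  rw [Finset.sum_ite_mem, Finset.univ_inter]

theorem ts_out {V : Type} [Fintype V] [DecidableEq V] (E : Finset (V × V)) (v : V) (g : V → ℝ) :
    ∑ p ∈ E.filter (fun p => p.1 = v), g p.2 = ∑ u, if (v, u) ∈ E then g u else 0 := by
  rw [Finset.sum_filter, ts_dbl E (fun a b => if a = v then g b else 0), Finset.sum_eq_single v]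
  · simp
  · intro b _ hb
    simp [hb]
  · simp

theorem ts_in {V : Type} [Fintype V] [DecidableEq V] (E : Finset (V × V)) (v : V) (g : V → ℝ) :
    ∑ p ∈ E.filter (fun p => p.2 = v), g p.1 = ∑ u, if (u, v) ∈ E then g u else 0 := by
  rw [Finset.sum_filter, ts_dbl E (fun a b => if b = v then g a else 0)]
  refine Finset.sum_congr rfl fun u _ => ?_
  rw [Finset.sum_eq_single v]
  · simp
  · intro b _ hb
    simp [hb]
  · simp

theorem ts_psi0 : psi 0 = 0 := by simp [psi]

theorem ts_xb0 {V : Type} [DecidableEq V] (E : Finset (V × V)) {κ : ℝ} (hκ : 0 < κ) (θ : V → ℝ)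
    (h0 : ∀ a, 0 ≤ θ a) (b : V) : 0 ≤ xb E κ θ b :=
  div_nonneg (Finset.sum_nonneg fun p _ => h0 p.1) hκ.le

theorem ts_g {C W η x : ℝ} (hC : 1 ≤ C) (hW : 1 ≤ W) (hη : 0 < η) (hη1 : η ≤ 1) (hx : 0 ≤ x) :
    Gf C (min x ((1 + η) * W)) ≤
      (if 1 < x ∧ x ≤ W then Gf C x else 0) + C * (2 + log W) / W * x := by
  have hl : 0 ≤ log W := Real.log_nonneg hW
  have hW0 : 0 < W := by linarith
  have hc : 0 ≤ C * (2 + log W) / W := by positivity
  have hcx : 0 ≤ C * (2 + log W) / W * x := mul_nonneg hc hx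
  by_cases h1 : 1 < x
  · by_cases h2 : x ≤ W
    · rw [if_pos ⟨h1, h2⟩, min_eq_left (by nlinarith)]
      linarith
    · rw [if_neg (fun h => h2 h.2), zero_add]
      refine (Gf_le hC hW hη hη1 x).trans ?_
      have h3 : C * (2 + log W) = C * (2 + log W) / W * W := by field_simp
      calc C * (2 + log W) = C * (2 + log W) / W * W := h3
        _ ≤ _ := mul_le_mul_of_nonneg_left (not_le.1 h2).le hc
  · rw [if_neg (fun h => h1 h.1), Gf_of_le_one ((min_le_left _ _).trans (not_lt.1 h1))]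
    linarith

theorem ts_sumx {V : Type} [Fintype V] [DecidableEq V] (G : SimpleGraph V) (A : Finset V)
    (E : Finset (V × V)) (hE : Arcs G A E) {κ r : ℝ} (hκ : 0 < κ)
    (hod : ∀ a, (od E a : ℝ) ≤ r * κ) (θ : V → ℝ) (h0 : ∀ a, 0 ≤ θ a) :
    ∑ b, xb E κ θ b ≤ r * ∑ a ∈ A, θ a := by
  simp only [xb]
  rw [← Finset.sum_div, Finset.sum_fiberwise, div_le_iff₀ hκ,
    ← Finset.sum_fiberwise_of_maps_to (s := E) (t := A) (g := fun p => p.1)
      (fun p hp => (hE p hp).2.1), Finset.mul_sum, Finset.sum_mul]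
  refine Finset.sum_le_sum fun a _ => ?_
  rw [Finset.sum_congr rfl (g := fun _ => θ a) (fun p hp => by rw [(Finset.mem_filter.1 hp).2]),
    Finset.sum_const, nsmul_eq_mul]
  have h := mul_le_mul_of_nonneg_right (hod a) (h0 a)
  simp only [od] at h
  linarith

theorem ts_phi {V : Type} [Fintype V] [DecidableEq V] (G : SimpleGraph V) (A B : Finset V)
    (E : Finset (V × V)) (hE : Arcs G A E) {C η W κ lam ρ : ℝ}
    (hη : 0 < η) (hη1 : η ≤ 1) (hC : 1 ≤ C) (hW : 1 ≤ W) (hκ : 0 < κ) (hlam : 1 ≤ lam)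
    (hod : ∀ a, (od E a : ℝ) ≤ ρ * lam * κ) (hGW : C * (2 + log W) * ρ ≤ η * W)
    (θ : V → ℝ) (h0 : ∀ a, 0 ≤ θ a) :
    Phi C W η lam A B E κ θ ≤
      ∑ b, (if 1 < xb E κ θ b ∧ xb E κ θ b ≤ W then Gf C (xb E κ θ b) else 0) -
        lam * ∑ a ∈ A, θ a := by
  have hl : 0 ≤ log W := Real.log_nonneg hW
  have hW0 : 0 < W := by linarith
  have hc : 0 ≤ C * (2 + log W) / W := by positivity
  have hT : 0 ≤ ∑ a ∈ A, θ a := Finset.sum_nonneg fun a _ => h0 a
  have h1 : ∑ b ∈ B, Gf C (min (xb E κ θ b) ((1 + η) * W)) ≤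
      ∑ b, Gf C (min (xb E κ θ b) ((1 + η) * W)) :=
    Finset.sum_le_sum_of_subset_of_nonneg (Finset.subset_univ B) fun b _ _ => Gf_nonneg hC _
  have h2 : ∑ b, Gf C (min (xb E κ θ b) ((1 + η) * W)) ≤
      ∑ b, ((if 1 < xb E κ θ b ∧ xb E κ θ b ≤ W then Gf C (xb E κ θ b) else 0) +
        C * (2 + log W) / W * xb E κ θ b) :=
    Finset.sum_le_sum fun b _ => ts_g hC hW hη hη1 (ts_xb0 E hκ θ h0 b)
  rw [Finset.sum_add_distrib, ← Finset.mul_sum] at h2
  have h3 := mul_le_mul_of_nonneg_left (ts_sumx G A E hE hκ hod θ h0) hc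
  have h4 : C * (2 + log W) / W * ρ ≤ η := by
    rw [div_mul_eq_mul_div, div_le_iff₀ hW0]
    exact hGW
  have h5 := mul_le_mul_of_nonneg_right h4 (mul_nonneg (by linarith : (0 : ℝ) ≤ lam) hT)
  simp only [Phi]
  nlinarith

theorem ts_s1 {V : Type} [Fintype V] [DecidableEq V] (E : Finset (V × V)) {C W κ : ℝ}
    (hC : 1 ≤ C) (hκ : 0 < κ) (θ : V → ℝ) :
    ∑ p ∈ E, θ p.1 * psi (Kf C W (xb E κ θ p.2)) =
      κ * ∑ b, (if 1 < xb E κ θ b ∧ xb E κ θ b ≤ W then Gf C (xb E κ θ b) + 1 else 0) := by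
  rw [← Finset.sum_fiberwise (s := E) (g := fun p => p.2), Finset.mul_sum]
  refine Finset.sum_congr rfl fun b _ => ?_
  rw [Finset.sum_congr rfl (g := fun p => θ p.1 * psi (Kf C W (xb E κ θ b)))
    (fun p hp => by rw [(Finset.mem_filter.1 hp).2]), ← Finset.sum_mul]
  have h : ∑ p ∈ E.filter (fun p => p.2 = b), θ p.1 = κ * xb E κ θ b := by
    simp only [xb]
    field_simp
  rw [h, mul_assoc]
  congr 1
  by_cases hw : 1 < xb E κ θ b ∧ xb E κ θ b ≤ W
  · rw [if_pos hw, Gf_psi hC hw.1 hw.2]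
  · rw [if_neg hw, Kf_eq_zero hw, ts_psi0, mul_zero]

open Classical in
theorem ts_s2 {V : Type} [Fintype V] [DecidableEq V] (G : SimpleGraph V) (A : Finset V)
    (E : Finset (V × V)) (hE : Arcs G A E) {C W κ lam : ℝ} (hκ : 0 < κ) (θ : V → ℝ) :
    ∑ p ∈ E, (if C * lam < Xa C W E κ θ p.1 then θ p.1 else 0) * Kf C W (xb E κ θ p.2) =
      κ * Hv C W lam A E κ θ := by
  rw [← Finset.sum_fiberwise_of_maps_to (s := E) (t := A) (g := fun p => p.1)
    (fun p hp => (hE p hp).2.1), Hv, Finset.sum_filter, Finset.mul_sum]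
  refine Finset.sum_congr rfl fun a _ => ?_
  rw [Finset.sum_congr rfl
    (g := fun p => (if C * lam < Xa C W E κ θ a then θ a else 0) * Kf C W (xb E κ θ p.2))
    (fun p hp => by rw [(Finset.mem_filter.1 hp).2]), ← Finset.mul_sum]
  have h : ∑ p ∈ E.filter (fun p => p.1 = a), Kf C W (xb E κ θ p.2) = κ * Xa C W E κ θ a := by
    simp only [Xa]
    field_simp
  rw [h]
  split_ifs
  · ring
  · ring

theorem test {V : Type} [Fintype V] [DecidableEq V] (G : SimpleGraph V) (A B : Finset V)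
    (E : Finset (V × V)) (hE : Arcs G A E) (hB : ∀ p ∈ E, p.2 ∈ B) {C η W κ lam ρ : ℝ}
    (hη : 0 < η) (hη1 : η ≤ 1) (hC : 1 ≤ C) (hW : 1 ≤ W) (hκ : 0 < κ) (hlam : 1 ≤ lam)
    (hρ : 0 < ρ) (hod : ∀ a, (od E a : ℝ) ≤ ρ * lam * κ) (hGW : C * (2 + log W) * ρ ≤ η * W)
    (θ : V → ℝ) (h0 : ∀ a, 0 ≤ θ a) (h1 : ∀ a, θ a ≤ 1)
    (hH : (1 + log W) * Hv C W lam A E κ θ < Phi C W η lam A B E κ θ) :
    Pos G κ (C * κ) := by
  classical
  have hPhi := ts_phi G A B E hE hη hη1 hC hW hκ hlam hod hGW θ h0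
  have hS1 := ts_s1 E (W := W) hC hκ θ
  have hS2 := ts_s2 G A E hE (C := C) (W := W) (lam := lam) hκ θ
  have hl0 : 0 < lam := by linarith
  have hli : 0 ≤ 1 / lam := by positivity
  have hli1 : 1 / lam ≤ 1 := by rw [div_le_one hl0]; exact hlam
  have hlW : 0 ≤ log W := Real.log_nonneg hW
  obtain ⟨Θ, hΘ⟩ : ∃ Θ : V → ℝ, ∀ v, Θ v = if v ∈ A then
      (if C * lam < Xa C W E κ θ v then 0 else θ v)
      else (if 1 < xb E κ θ v ∧ xb E κ θ v ≤ W then 1 / lam else 0) := ⟨_, fun _ => rfl⟩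
  obtain ⟨w, hw⟩ : ∃ w : V → V → ℝ, ∀ u v, w u v = if (u, v) ∈ E then Kf C W (xb E κ θ v)
      else if (v, u) ∈ E then Kf C W (xb E κ θ u) else 0 := ⟨_, fun _ _ => rfl⟩
  have hnb : ∀ u v, (u, v) ∈ E → (v, u) ∉ E := fun u v h h' => (hE _ h').2.2 (hE _ h).2.1
  have hΘ0 : ∀ v, 0 ≤ Θ v := fun v => by
    rw [hΘ]
    split_ifs
    exacts [le_rfl, h0 v, hli, le_rfl]
  have hΘA : ∀ v ∈ A, Θ v ≤ θ v := fun v hv => by
    rw [hΘ, if_pos hv]
    split_ifs
    exacts [h0 v, le_rfl]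
  have hΘB : ∀ v, v ∉ A → Θ v ≤ 1 / lam := fun v hv => by
    rw [hΘ, if_neg hv]
    split_ifs
    exacts [le_rfl, hli]
  refine ⟨Θ, w, ⟨hΘ0, fun v => ?_, fun u v => ?_, fun u v => ?_, fun u v => ?_, fun u v h => ?_,
    fun v hv => ?_⟩, ?_⟩
  · by_cases hv : v ∈ A
    · exact (hΘA v hv).trans (h1 v)
    · exact (hΘB v hv).trans hli1
  · rw [hw]
    split_ifs
    exacts [Kf_nonneg hC _ _, Kf_nonneg hC _ _, le_rfl]
  · rw [hw]
    split_ifs
    exacts [Kf_le_one _ _ _, Kf_le_one _ _ _, zero_le_one]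
  · rw [hw, hw]
    by_cases h : (u, v) ∈ E
    · rw [if_pos h, if_neg (hnb u v h), if_pos h]
    · by_cases h' : (v, u) ∈ E
      · rw [if_neg h, if_pos h', if_pos h']
      · rw [if_neg h, if_neg h', if_neg h', if_neg h]
  · rw [hw, if_neg (fun h' => h (hE _ h').1), if_neg (fun h' => h (hE _ h').1.symm)]
  · by_cases hA : v ∈ A
    · have hX : Xa C W E κ θ v ≤ C * lam := by
        by_contra hX
        rw [hΘ, if_pos hA, if_pos (not_le.1 hX)] at hv
        exact lt_irrefl _ hv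
      have hle : dg Θ w v ≤
          ∑ u, 1 / lam * (if (v, u) ∈ E then Kf C W (xb E κ θ u) else 0) := by
        refine Finset.sum_le_sum fun u _ => ?_
        rw [hw]
        by_cases h : (v, u) ∈ E
        · rw [if_pos h, if_pos h]
          exact mul_le_mul_of_nonneg_right (hΘB u (hE _ h).2.2) (Kf_nonneg hC _ _)
        · rw [if_neg h, if_neg h, if_neg (fun h' => (hE _ h').2.2 hA), mul_zero, mul_zero]
      rw [← Finset.mul_sum, ← ts_out E v (fun u => Kf C W (xb E κ θ u))] at hle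
      simp only [Xa] at hX
      rw [div_le_iff₀ hκ] at hX
      refine hle.trans ((mul_le_mul_of_nonneg_left hX hli).trans (le_of_eq ?_))
      field_simp
    · have hle : dg Θ w v ≤
          ∑ u, (if (u, v) ∈ E then θ u else 0) * Kf C W (xb E κ θ v) := by
        refine Finset.sum_le_sum fun u _ => ?_
        rw [hw, if_neg (fun h' => hA (hE _ h').2.1)]
        by_cases h : (u, v) ∈ E
        · rw [if_pos h, if_pos h]
          exact mul_le_mul_of_nonneg_right (hΘA u (hE _ h).2.1) (Kf_nonneg hC _ _)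
        · rw [if_neg h, if_neg h, mul_zero, zero_mul]
      rw [← Finset.sum_mul, ← ts_in E v θ] at hle
      have h : ∑ p ∈ E.filter (fun p => p.2 = v), θ p.1 = κ * xb E κ θ v := by
        simp only [xb]
        field_simp
      rw [h] at hle
      have h2 := mul_le_mul_of_nonneg_left (mul_Kf_le hC W (xb E κ θ v)) hκ.le
      linarith
  · have hR : ∑ u, ∑ v, Θ u * Θ v * psi (w u v) =
        2 * ∑ p ∈ E, Θ p.1 * Θ p.2 * psi (Kf C W (xb E κ θ p.2)) := by
      rw [ts_dbl E (fun u v => Θ u * Θ v * psi (Kf C W (xb E κ θ v))), two_mul]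
      conv_rhs => rw [Finset.sum_comm.symm.trans rfl]
      have e : ∀ u v, Θ u * Θ v * psi (w u v) =
          (if (u, v) ∈ E then Θ u * Θ v * psi (Kf C W (xb E κ θ v)) else 0) +
          (if (v, u) ∈ E then Θ v * Θ u * psi (Kf C W (xb E κ θ u)) else 0) := by
        intro u v
        rw [hw]
        by_cases h : (u, v) ∈ E
        · rw [if_pos h, if_pos h, if_neg (hnb u v h), add_zero]
        · by_cases h' : (v, u) ∈ E
          · rw [if_neg h, if_pos h', if_neg h, if_pos h', zero_add, mul_comm (Θ u)]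
          · rw [if_neg h, if_neg h', if_neg h, if_neg h', ts_psi0, mul_zero, add_zero]
      simp only [e, Finset.sum_add_distrib]
      congr 1
      all_goals first | rfl | exact Finset.sum_comm
    have hlow : ∑ p ∈ E, 1 / lam * (θ p.1 * psi (Kf C W (xb E κ θ p.2)) - (1 + log W) *
          ((if C * lam < Xa C W E κ θ p.1 then θ p.1 else 0) * Kf C W (xb E κ θ p.2))) ≤
        ∑ p ∈ E, Θ p.1 * Θ p.2 * psi (Kf C W (xb E κ θ p.2)) := by
      refine Finset.sum_le_sum fun p hp => ?_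
      have e2 : Θ p.2 * psi (Kf C W (xb E κ θ p.2)) = 1 / lam * psi (Kf C W (xb E κ θ p.2)) := by
        rw [hΘ, if_neg (hE p hp).2.2]
        by_cases hwin : 1 < xb E κ θ p.2 ∧ xb E κ θ p.2 ≤ W
        · rw [if_pos hwin]
        · rw [Kf_eq_zero hwin, ts_psi0, mul_zero, mul_zero]
      rw [mul_assoc, e2, hΘ, if_pos (hE p hp).2.1]
      have h3 := mul_le_mul_of_nonneg_left (psi_Kf_le hC hW (xb E κ θ p.2)) (h0 p.1)
      split_ifs
      · rw [zero_mul]
        exact mul_nonpos_of_nonneg_of_nonpos hli (by linarith)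
      · exact le_of_eq (by ring)
    rw [← Finset.mul_sum, Finset.sum_sub_distrib, ← Finset.mul_sum, hS1, hS2] at hlow
    have hL : ∑ v, Θ v ≤ ∑ v, ((if v ∈ A then θ v else 0) +
        1 / lam * (if 1 < xb E κ θ v ∧ xb E κ θ v ≤ W then 1 else 0)) := by
      refine Finset.sum_le_sum fun v _ => ?_
      by_cases hv : v ∈ A
      · rw [if_pos hv]
        have : 0 ≤ 1 / lam * (if 1 < xb E κ θ v ∧ xb E κ θ v ≤ W then (1 : ℝ) else 0) :=
          mul_nonneg hli (by split_ifs <;> norm_num)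
        linarith [hΘA v hv]
      · rw [hΘ, if_neg hv, if_neg hv]
        split_ifs <;> simp
    rw [Finset.sum_add_distrib, ← Finset.mul_sum, Finset.sum_ite_mem, Finset.univ_inter] at hL
    have hsp : ∑ b, (if 1 < xb E κ θ b ∧ xb E κ θ b ≤ W then Gf C (xb E κ θ b) + 1 else 0) =
        ∑ b, (if 1 < xb E κ θ b ∧ xb E κ θ b ≤ W then Gf C (xb E κ θ b) else 0) +
        ∑ b, (if 1 < xb E κ θ b ∧ xb E κ θ b ≤ W then (1 : ℝ) else 0) := by
      rw [← Finset.sum_add_distrib]
      refine Finset.sum_congr rfl fun b _ => ?_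
      split_ifs <;> simp
    rw [hsp] at hlow
    rw [hR]
    generalize ∑ b, (if 1 < xb E κ θ b ∧ xb E κ θ b ≤ W then Gf C (xb E κ θ b) else 0) = Gs at *
    generalize ∑ b, (if 1 < xb E κ θ b ∧ xb E κ θ b ≤ W then (1 : ℝ) else 0) = N at *
    generalize ∑ a ∈ A, θ a = T at *
    generalize Hv C W lam A E κ θ = H at *
    have k1 : lam * T < Gs - (1 + log W) * H := by linarith
    have k2 : T < 1 / lam * (Gs - (1 + log W) * H) := by
      rw [one_div, ← div_eq_inv_mul, lt_div_iff₀ hl0]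
      linarith
    have k3 := mul_lt_mul_of_pos_left k2 hκ
    have k4 := mul_le_mul_of_nonneg_left hL hκ.le
    nlinarith

end Pool.Agent.Work.MP_78fef3_co.L
end

-- part Step
section
namespace Pool.Agent.Work.MP_78fef3_co.L

open Finset Real

theorem st_swap {V : Type} [DecidableEq V] (A B : Finset V) (E : Finset (V × V))
    (hA : ∀ p ∈ E, p.1 ∈ A) (hB : ∀ p ∈ E, p.2 ∈ B) (f g : V → ℝ) (κ : ℝ) :
    ∑ b ∈ B, g b * ((∑ p ∈ E.filter (fun p => p.2 = b), f p.1) / κ) =
      ∑ a ∈ A, f a * ((∑ p ∈ E.filter (fun p => p.1 = a), g p.2) / κ) := by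
  have e1 : ∀ b ∈ B, g b * ((∑ p ∈ E.filter (fun p => p.2 = b), f p.1) / κ) =
      ∑ p ∈ E.filter (fun p => p.2 = b), f p.1 * g p.2 / κ := by
    intro b _
    rw [sum_div, mul_sum]
    refine sum_congr rfl fun p hp => ?_
    rw [(mem_filter.1 hp).2]
    ring
  have e2 : ∀ a ∈ A, f a * ((∑ p ∈ E.filter (fun p => p.1 = a), g p.2) / κ) =
      ∑ p ∈ E.filter (fun p => p.1 = a), f p.1 * g p.2 / κ := by
    intro a _
    rw [sum_div, mul_sum]
    refine sum_congr rfl fun p hp => ?_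
    rw [(mem_filter.1 hp).2]
    ring
  rw [sum_congr rfl e1, sum_congr rfl e2, sum_fiberwise_of_maps_to hB, sum_fiberwise_of_maps_to hA]

theorem st_num {C η H S lam : ℝ} (hη : 0 < η) (hη1 : η ≤ 1) (hC : (1 + η) ^ 3 ≤ C)
    (hS : 0 ≤ lam * S) (h : C * (lam * S) ≤ H) :
    η ^ 2 / 4 * H ≤ η * H / (1 + η) - (1 + η) * η * (lam * S) := by
  have p1 : 0 < 1 + η := by linarith only [hη]
  have a1 : (1 + η) ^ 3 * (lam * S) ≤ H := (mul_le_mul_of_nonneg_right hC hS).trans h
  have H0 : 0 ≤ H := (mul_nonneg (pow_pos p1 3).le hS).trans a1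
  have a2 : (1 + η) ^ 2 ≤ 4 := by nlinarith only [hη, hη1]
  have a3 : η ^ 2 / 4 * H ≤ η ^ 2 / (1 + η) ^ 2 * H :=
    mul_le_mul_of_nonneg_right (div_le_div_of_nonneg_left (sq_nonneg η) (pow_pos p1 2) a2) H0
  have a4 : (1 + η) * η * (lam * S) ≤ η * H / (1 + η) ^ 2 := by
    rw [le_div_iff₀ (pow_pos p1 2)]
    have := mul_le_mul_of_nonneg_left a1 hη.le
    linarith only [this]
  have a5 : η ^ 2 / (1 + η) ^ 2 * H = η * H / (1 + η) - η * H / (1 + η) ^ 2 := by
    field_simp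
    ring
  linarith only [a3, a4, a5]

open Classical in
theorem step {V : Type} [DecidableEq V] (G : SimpleGraph V) (A B : Finset V)
    (E : Finset (V × V)) (hE : Arcs G A E) (hB : ∀ p ∈ E, p.2 ∈ B) {C η W κ lam : ℝ}
    (hη : 0 < η) (hη1 : η ≤ 1) (hC : (1 + η) ^ 3 ≤ C) (hW : 1 ≤ W) (hκ : 0 < κ) (hlam : 1 ≤ lam)
    (θ : V → ℝ) (h0 : ∀ a, 0 ≤ θ a)
    (hH : Phi C W η lam A B E κ θ ≤ (1 + log W) * Hv C W lam A E κ θ) :
    Phi C W η lam A B E κ θ * (1 + η ^ 2 / (4 * (1 + log W))) ≤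
      Phi C W η lam A B E κ (fun a => if C * lam < Xa C W E κ θ a then (1 + η) * θ a else θ a) := by
  have p1 : 0 < 1 + η := by linarith only [hη]
  have C1 : 1 ≤ C := (one_le_pow₀ (by linarith only [hη])).trans hC
  have L0 : 0 < 1 + log W := by linarith only [log_nonneg hW]
  obtain ⟨δ, hδ⟩ : ∃ δ : V → ℝ, δ = fun a => if C * lam < Xa C W E κ θ a then θ a else 0 :=
    ⟨_, rfl⟩
  have d0 : ∀ a, 0 ≤ δ a := fun a => by
    rw [hδ]
    dsimp only
    split_ifs
    · exact h0 a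
    · exact le_rfl
  have d1 : ∀ a, δ a ≤ θ a := fun a => by
    rw [hδ]
    dsimp only
    split_ifs
    · exact le_rfl
    · exact h0 a
  have d2 : ∀ a, C * (lam * δ a) ≤ δ a * Xa C W E κ θ a := fun a => by
    rw [hδ]
    dsimp only
    split_ifs with h
    · have := mul_le_mul_of_nonneg_left h.le (h0 a)
      linarith only [this]
    · simp only [mul_zero, zero_mul, le_refl]
  have e0 : (fun a => if C * lam < Xa C W E κ θ a then (1 + η) * θ a else θ a) =
      fun a => θ a + η * δ a := by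
    funext a
    rw [hδ]
    dsimp only
    split_ifs <;> ring
  have eH : Hv C W lam A E κ θ = ∑ a ∈ A, δ a * Xa C W E κ θ a := by
    unfold Hv
    rw [sum_filter]
    refine sum_congr rfl fun a _ => ?_
    rw [hδ]
    dsimp only
    split_ifs
    · rfl
    · rw [zero_mul]
  have ex : ∀ b, xb E κ (fun a => θ a + η * δ a) b = xb E κ θ b + η * xb E κ δ b := fun b => by
    unfold xb
    rw [sum_add_distrib, ← mul_sum]
    ring
  have x0 : ∀ b, 0 ≤ xb E κ δ b := fun b => div_nonneg (sum_nonneg fun p _ => d0 p.1) hκ.le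
  have x1 : ∀ b, xb E κ δ b ≤ xb E κ θ b := fun b =>
    div_le_div_of_nonneg_right (sum_le_sum fun p _ => d1 p.1) hκ.le
  have sw : ∑ b ∈ B, Kf C W (xb E κ θ b) * xb E κ δ b = Hv C W lam A E κ θ := by
    rw [eH]
    exact st_swap A B E (fun p hp => (hE p hp).2.1) hB δ (fun b => Kf C W (xb E κ θ b)) κ
  have gain : η * Hv C W lam A E κ θ / (1 + η) ≤
      ∑ b ∈ B, Gf C (min (xb E κ θ b + η * xb E κ δ b) ((1 + η) * W)) -
        ∑ b ∈ B, Gf C (min (xb E κ θ b) ((1 + η) * W)) := by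
    rw [← sw, ← sum_sub_distrib, mul_sum, sum_div]
    refine sum_le_sum fun b _ => ?_
    rw [mul_left_comm]
    exact Gf_step C1 hη (mul_nonneg hη.le (x0 b)) (mul_le_mul_of_nonneg_left (x1 b) hη.le)
  have S0 : 0 ≤ lam * ∑ a ∈ A, δ a :=
    mul_nonneg (zero_le_one.trans hlam) (sum_nonneg fun a _ => d0 a)
  have S1 : C * (lam * ∑ a ∈ A, δ a) ≤ Hv C W lam A E κ θ := by
    rw [eH, mul_sum, mul_sum]
    exact sum_le_sum fun a _ => d2 a
  have n1 := st_num hη hη1 hC S0 S1
  have n2 : Phi C W η lam A B E κ θ * (η ^ 2 / (4 * (1 + log W))) ≤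
      η ^ 2 / 4 * Hv C W lam A E κ θ := by
    refine (mul_le_mul_of_nonneg_right hH (by positivity)).trans (le_of_eq ?_)
    field_simp
  have eP : Phi C W η lam A B E κ (fun a => θ a + η * δ a) =
      ∑ b ∈ B, Gf C (min (xb E κ θ b + η * xb E κ δ b) ((1 + η) * W)) -
        (1 + η) * lam * (∑ a ∈ A, θ a + η * ∑ a ∈ A, δ a) := by
    unfold Phi
    simp only [ex]
    rw [sum_add_distrib, ← mul_sum]
  have eQ : Phi C W η lam A B E κ θ =
      ∑ b ∈ B, Gf C (min (xb E κ θ b) ((1 + η) * W)) - (1 + η) * lam * ∑ a ∈ A, θ a := rfl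
  rw [e0, eP, mul_add, mul_one]
  linarith only [gain, n1, n2, eQ]

end Pool.Agent.Work.MP_78fef3_co.L
end

-- part Boost
section
namespace Pool.Agent.Work.MP_78fef3_co.L

open Finset Real

theorem boost {V : Type} [Fintype V] [DecidableEq V] (G : SimpleGraph V) (A B : Finset V)
    (E : Finset (V × V)) (hE : Arcs G A E) (hB : ∀ p ∈ E, p.2 ∈ B) {C η W κ lam ρ θ0 : ℝ} {m : ℕ}
    (hη : 0 < η) (hη1 : η ≤ 1) (hC : (1 + η) ^ 3 ≤ C) (hW : 1 ≤ W) (hκ : 0 < κ) (hlam : 1 ≤ lam)
    (hρ : 0 < ρ) (hθ0 : 0 < θ0) (hA : A.Nonempty) (hod : ∀ a, (od E a : ℝ) ≤ ρ * lam * κ)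
    (hBc : (B.card : ℝ) ≤ θ0 * ρ * lam * A.card) (hGW : C * (2 + log W) * ρ ≤ η * W)
    (hm1 : θ0 * (1 + η) ^ m ≤ 1) (hm2 : W < (1 + η ^ 2 / (4 * (1 + log W))) ^ m)
    (hΦ : (1 + 2 * η) * lam * θ0 * A.card ≤
      ∑ b ∈ B, Gf C (min (θ0 * idg E b / κ) ((1 + η) * W))) :
    Pos G κ (C * κ) := by
  classical
  by_contra hP
  have hC1 : 1 ≤ C := (one_le_pow₀ (by linarith)).trans hC
  have hlW : 0 ≤ log W := log_nonneg hW
  have hAc : (0 : ℝ) < A.card := by exact_mod_cast hA.card_pos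
  set r : ℝ := 1 + η ^ 2 / (4 * (1 + log W)) with hr
  have hr0 : 0 < r := by rw [hr]; positivity
  have key : ∀ i ≤ m, ∃ θ : V → ℝ, (∀ a, 0 ≤ θ a) ∧ (∀ a, θ a ≤ θ0 * (1 + η) ^ i) ∧
      η * lam * θ0 * A.card * r ^ i ≤ Phi C W η lam A B E κ θ := by
    intro i
    induction i with
    | zero =>
      intro _
      refine ⟨fun _ => θ0, fun _ => hθ0.le, fun _ => by simp, ?_⟩
      have hx : ∀ b, xb E κ (fun _ => θ0) b = θ0 * idg E b / κ := by
        intro b
        simp [xb, idg, mul_comm]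
      simp only [Phi, hx, sum_const, nsmul_eq_mul, pow_zero, mul_one]
      nlinarith [hΦ]
    | succ i ih =>
      intro hi
      obtain ⟨θ, h0, h1, h2⟩ := ih (by omega)
      have hle : θ0 * (1 + η) ^ i ≤ 1 :=
        (mul_le_mul_of_nonneg_left (pow_le_pow_right₀ (by linarith) (by omega)) hθ0.le).trans hm1
      have hH : Phi C W η lam A B E κ θ ≤ (1 + log W) * Hv C W lam A E κ θ := by
        by_contra hlt
        exact hP (test G A B E hE hB hη hη1 hC1 hW hκ hlam hρ hod hGW θ h0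
          (fun a => (h1 a).trans hle) (not_le.1 hlt))
      have hs := step G A B E hE hB hη hη1 hC hW hκ hlam θ h0 hH
      refine ⟨_, ?_, ?_, le_trans ?_ hs⟩
      · intro a
        split_ifs
        · exact mul_nonneg (by linarith) (h0 a)
        · exact h0 a
      · intro a
        have hp : 0 ≤ θ0 * (1 + η) ^ i := by positivity
        have := h1 a
        rw [pow_succ]
        split_ifs
        · nlinarith
        · nlinarith
      · rw [pow_succ, ← mul_assoc]
        exact mul_le_mul_of_nonneg_right h2 hr0.le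
  obtain ⟨θ, h0, -, h2⟩ := key m le_rfl
  have h3 : Phi C W η lam A B E κ θ ≤ B.card * (C * (2 + log W)) := by
    have h4 : ∑ b ∈ B, Gf C (min (xb E κ θ b) ((1 + η) * W)) ≤ B.card * (C * (2 + log W)) := by
      rw [← nsmul_eq_mul]
      exact sum_le_card_nsmul _ _ _ fun b _ => Gf_le hC1 hW hη hη1 _
    have h5 : 0 ≤ (1 + η) * lam * ∑ a ∈ A, θ a :=
      mul_nonneg (by positivity) (sum_nonneg fun a _ => h0 a)
    unfold Phi
    linarith
  have h6 : (B.card : ℝ) * (C * (2 + log W)) ≤ θ0 * ρ * lam * A.card * (C * (2 + log W)) :=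
    mul_le_mul_of_nonneg_right hBc (by positivity)
  have hq : 0 < lam * θ0 * A.card := by positivity
  have h7 : lam * θ0 * A.card * (C * (2 + log W) * ρ) ≤ lam * θ0 * A.card * (η * W) :=
    mul_le_mul_of_nonneg_left hGW hq.le
  have h8 : η * (lam * θ0 * A.card) * W < η * (lam * θ0 * A.card) * r ^ m :=
    mul_lt_mul_of_pos_left hm2 (by positivity)
  nlinarith

end Pool.Agent.Work.MP_78fef3_co.L
end

-- part Par
section
namespace Pool.Agent.Work.MP_78fef3_co.L

open Finset Real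

theorem pr_log {d : ℝ} (h0 : 0 < d) (h1 : d ≤ 1) : d / 2 ≤ log (1 + d) := by
  have h := one_sub_inv_le_log_of_pos (show 0 < 1 + d by linarith)
  have e : 1 - (1 + d)⁻¹ = d / (1 + d) := by field_simp; ring
  have g : d / 2 ≤ d / (1 + d) := div_le_div_of_nonneg_left h0.le (by linarith) (by linarith)
  linarith

theorem par {C η W0 : ℝ} (hC : 1 ≤ C) (hη : 0 < η) (hη1 : η ≤ 1) (hW0 : 1 ≤ W0) :
    ∃ c : ℝ, 0 < c ∧ ∀ ρ : ℝ, 2 ≤ ρ → ∃ (W : ℝ) (m : ℕ), W0 ≤ W ∧
      C * (2 + log W) * ρ ≤ η * W ∧ W < (1 + η ^ 2 / (4 * (1 + log W))) ^ m ∧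
        W * (1 + η) ^ m ≤ exp (c * log ρ ^ 2) := by
  obtain ⟨a, ha1, ha2⟩ : ∃ a : ℝ, W0 ≤ a ∧ 2 * C ≤ η * a :=
    ⟨max W0 (2 * C / η), le_max_left _ _, by
      have := le_max_right W0 (2 * C / η)
      rwa [div_le_iff₀' hη] at this⟩
  have a1 : 1 ≤ a := hW0.trans ha1
  have la : 0 ≤ log a := log_nonneg a1
  obtain ⟨k, hk⟩ : ∃ k : ℝ, k = 4 * log a + 2 := ⟨_, rfl⟩
  have k0 : 0 < k := by rw [hk]; linarith
  have e0 : 0 < η ^ 2 := by positivity
  refine ⟨2 * k + 8 * k * (2 + k) / η ^ 2 + 8, by positivity, fun ρ hρ => ?_⟩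
  have r0 : 0 < ρ := by linarith
  have ar : 1 ≤ a * ρ := by nlinarith
  have l2 : 1 / 2 ≤ log ρ := by
    have h1 := log_le_log (by norm_num) hρ
    have h2 := log_two_gt_d9
    linarith
  obtain ⟨L, hL⟩ : ∃ L : ℝ, L = log ((a * ρ) ^ 2) := ⟨_, rfl⟩
  have L1 : L = 2 * log (a * ρ) := by rw [hL, log_pow]; norm_num
  have L2 : L = 2 * (log a + log ρ) := by rw [L1, log_mul (by linarith) r0.ne']
  have L0 : 0 ≤ L := by rw [L2]; linarith
  have L3 : L ≤ k * log ρ := by rw [L2, hk]; nlinarith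
  have L4 : 2 + L ≤ 2 * (a * ρ) := by
    have := log_le_sub_one_of_pos (show 0 < a * ρ by linarith)
    rw [L1]; linarith
  have W0' : 0 < (a * ρ) ^ 2 := by positivity
  have eW : (a * ρ) ^ 2 = exp L := by rw [hL, exp_log W0']
  obtain ⟨d, hd⟩ : ∃ d : ℝ, d = η ^ 2 / (4 * (1 + L)) := ⟨_, rfl⟩
  have d0 : 0 < d := by rw [hd]; positivity
  have d1 : d ≤ 1 := by
    rw [hd, div_le_one (by positivity)]
    nlinarith
  have dq : 2 * L / d = 8 * L * (1 + L) / η ^ 2 := by
    rw [hd]; field_simp; ring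
  obtain ⟨m, m1, m2⟩ : ∃ m : ℕ, 2 * L / d < m ∧ (m : ℝ) ≤ 2 * L / d + 2 := by
    refine ⟨⌈2 * L / d⌉₊ + 1, ?_, ?_⟩
    · have := Nat.le_ceil (2 * L / d)
      push_cast; linarith
    · have := Nat.ceil_lt_add_one (show 0 ≤ 2 * L / d by positivity)
      push_cast; linarith
  refine ⟨(a * ρ) ^ 2, m, by nlinarith, ?_, ?_, ?_⟩
  · rw [← hL]
    calc C * (2 + L) * ρ ≤ C * (2 * (a * ρ)) * ρ := by gcongr
      _ = 2 * C * (a * ρ ^ 2) := by ring
      _ ≤ η * a * (a * ρ ^ 2) := by gcongr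
      _ = η * (a * ρ) ^ 2 := by ring
  · rw [← hL, ← hd, eW, ← exp_log (show 0 < 1 + d by linarith), ← exp_nat_mul, exp_lt_exp]
    have h1 := pr_log d0 d1
    rw [div_lt_iff₀ d0] at m1
    have h2 : (m : ℝ) * (d / 2) ≤ m * log (1 + d) := by gcongr
    linarith
  · have h1 : (1 + η) ^ m ≤ exp (m : ℝ) := by
      calc (1 + η) ^ m ≤ exp 1 ^ m := by
            gcongr
            have := add_one_le_exp (1 : ℝ)
            linarith
        _ = exp (m : ℝ) := by rw [← exp_nat_mul, mul_one]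
    have h2 : L + m ≤ (2 * k + 8 * k * (2 + k) / η ^ 2 + 8) * log ρ ^ 2 := by
      have b1 : L ≤ 2 * k * log ρ ^ 2 := by
        have : k * log ρ * 1 ≤ k * log ρ * (2 * log ρ) := by
          gcongr
          linarith
        nlinarith
      have b2 : (2 : ℝ) ≤ 8 * log ρ ^ 2 := by nlinarith
      have b3 : 8 * L * (1 + L) ≤ 8 * k * (2 + k) * log ρ ^ 2 := by
        calc 8 * L * (1 + L) ≤ 8 * (k * log ρ) * (2 * log ρ + k * log ρ) := by
              gcongr
              linarith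
          _ = 8 * k * (2 + k) * log ρ ^ 2 := by ring
      have b4 : 8 * L * (1 + L) / η ^ 2 ≤ 8 * k * (2 + k) / η ^ 2 * log ρ ^ 2 := by
        rw [div_mul_eq_mul_div]
        gcongr
      rw [dq] at m2
      nlinarith
    calc (a * ρ) ^ 2 * (1 + η) ^ m ≤ exp L * exp (m : ℝ) := by rw [eW]; gcongr
      _ = exp (L + m) := (exp_add _ _).symm
      _ ≤ _ := exp_le_exp.2 h2

end Pool.Agent.Work.MP_78fef3_co.L
end

-- part Asy
section
namespace Pool.Agent.Work.MP_78fef3_co.L

open Finset Real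

theorem ay_ev {c K B : ℝ} (hc : 0 < c) :
    ∃ t0 : ℝ, ∀ t : ℝ, t0 ≤ t → 1 ≤ t ∧ K * t ^ 2 ≤ exp t ∧ B ≤ t ∧ 18 * c * log t ^ 2 ≤ t := by
  have h1 := Filter.eventually_ge_atTop (1 : ℝ)
  have h2 := (tendsto_exp_div_pow_atTop 2).eventually_ge_atTop K
  have h3 := Filter.eventually_ge_atTop B
  have h4 := (isLittleO_pow_log_id_atTop (n := 2)).bound (c := 1 / (18 * c)) (by positivity)
  obtain ⟨t0, h⟩ := Filter.eventually_atTop.1 (h1.and (h2.and (h3.and h4)))
  refine ⟨t0, fun t ht => ?_⟩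
  obtain ⟨a, b, d, f⟩ := h t ht
  have t2 : 0 < t ^ 2 := by positivity
  refine ⟨a, (le_div_iff₀ t2).1 b, d, ?_⟩
  rw [Real.norm_eq_abs, Real.norm_eq_abs, id, abs_of_nonneg (sq_nonneg _),
    abs_of_nonneg (by linarith : (0 : ℝ) ≤ t), one_div, inv_mul_eq_div,
    le_div_iff₀ (by positivity)] at f
  linarith

theorem asy {c e C : ℝ} (hc : 0 < c) (he : 0 < e) (he1 : e ≤ 1) (hC : 1 ≤ C) :
    ∃ L0 : ℝ, ∀ L : ℝ, L0 ≤ L → ∀ M' : ℝ, M' = (exp (c * log (4 * L) ^ 2) + 4 * L) / e →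
      1 ≤ M' ∧ 16 * (log M' + 1) * (1 + log C) ≤ e * L ∧
        8 * (1 + log C) * exp (c * log (32 * (log M' + 1) / e) ^ 2) ≤ e * L := by
  obtain ⟨A, hA⟩ : ∃ A, A = 1 + log C := ⟨_, rfl⟩
  have A1 : 1 ≤ A := by have := log_nonneg hC; linarith
  obtain ⟨K, hK⟩ : ∃ K, K = log (2 / e) + c + 2 := ⟨_, rfl⟩
  have l0 : 0 ≤ log (2 / e) := log_nonneg (by rw [le_div_iff₀ he]; linarith)
  have K0 : 0 < K := by linarith
  obtain ⟨t0, h⟩ := ay_ev (K := 64 * K * A / e) (B := max (32 * K / e) (64 * A / e)) hc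
  refine ⟨exp t0 / 4, fun L hL M hM => ?_⟩
  have p0 := exp_pos t0
  have L0 : 0 < 4 * L := by linarith
  obtain ⟨t, ht⟩ : ∃ t, t = log (4 * L) := ⟨_, rfl⟩
  have et : exp t = 4 * L := by rw [ht, exp_log L0]
  obtain ⟨a, b, d, f⟩ := h t (by rw [← exp_le_exp, et]; linarith)
  rw [← ht, ← et] at hM
  rw [← hA]
  have t2 : t ≤ t ^ 2 := by nlinarith
  have ct : 0 ≤ c * t ^ 2 := by positivity
  have q1 : exp (c * t ^ 2) ≤ exp ((c + 1) * t ^ 2) := exp_le_exp.2 (by nlinarith)
  have q2 : exp t ≤ exp ((c + 1) * t ^ 2) := exp_le_exp.2 (by nlinarith)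
  have q3 := exp_pos (c * t ^ 2)
  have q4 := add_one_le_exp t
  have M1 : 1 ≤ M := by rw [hM, le_div_iff₀ he]; linarith
  have M2 : M ≤ 2 / e * exp ((c + 1) * t ^ 2) := by
    rw [hM, div_mul_eq_mul_div]
    exact div_le_div_of_nonneg_right (by linarith) he.le
  have m0 := log_nonneg M1
  have m1 : log M ≤ log (2 / e) + (c + 1) * t ^ 2 := by
    have := log_le_log (by linarith) M2
    rwa [log_mul (by positivity) (exp_pos _).ne', log_exp] at this
  have m2 : log M + 1 ≤ K * t ^ 2 := by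
    have : log (2 / e) * 1 ≤ log (2 / e) * t ^ 2 := mul_le_mul_of_nonneg_left (by linarith) l0
    rw [hK]; nlinarith
  refine ⟨M1, ?_, ?_⟩
  · rw [div_mul_eq_mul_div, div_le_iff₀ he, et] at b
    have := mul_le_mul_of_nonneg_right m2 (by linarith : 0 ≤ A)
    nlinarith
  · have d1 : 32 * K / e ≤ t := (le_max_left _ _).trans d
    have d2 : 64 * A / e ≤ t := (le_max_right _ _).trans d
    have s1 : 1 ≤ 32 * (log M + 1) / e := by rw [le_div_iff₀ he]; linarith
    have s2 : 32 * (log M + 1) / e ≤ t ^ 3 := by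
      have u1 : 32 * (log M + 1) / e ≤ 32 * K / e * t ^ 2 := by
        rw [div_mul_eq_mul_div]
        exact div_le_div_of_nonneg_right (by linarith) he.le
      have u2 := mul_le_mul_of_nonneg_right d1 (sq_nonneg t)
      nlinarith
    have s3 := log_le_log (by linarith) s2
    rw [log_pow] at s3
    have s4 := log_nonneg s1
    have s5 : log (32 * (log M + 1) / e) ^ 2 ≤ (3 * log t) ^ 2 :=
      pow_le_pow_left₀ s4 (by exact_mod_cast s3) 2
    have s6 : exp (c * log (32 * (log M + 1) / e) ^ 2) ≤ exp (t / 2) :=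
      exp_le_exp.2 (by have := mul_le_mul_of_nonneg_left s5 hc.le; nlinarith)
    have s7 : exp (t / 2) * exp (t / 2) = 4 * L := by rw [← exp_add, add_halves, et]
    have s8 := add_one_le_exp (t / 2)
    have s9 := exp_pos (t / 2)
    rw [div_le_iff₀ he] at d2
    have r1 : 32 * A ≤ e * exp (t / 2) := by nlinarith
    have r2 := mul_le_mul_of_nonneg_right r1 s9.le
    have r3 := mul_le_mul_of_nonneg_left s6 (by linarith : 0 ≤ 8 * A)
    have r4 : e * exp (t / 2) * exp (t / 2) = 4 * (e * L) := by rw [mul_assoc, s7]; ring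
    linarith

end Pool.Agent.Work.MP_78fef3_co.L
end

-- part Bip
section
namespace Pool.Agent.Work.MP_78fef3_co.L

open Finset Real

theorem bp_eta {C ε : ℝ} (hC : 1 < C) (hε : 0 < ε) : ∃ η : ℝ, 0 < η ∧ η < 1 ∧ (1 + η) ^ 3 ≤ C ∧
    (1 + 2 * η) * (1 + log C) ≤ (1 + ε) * (1 + log C - η) := by
  have hl : 0 ≤ log C := log_nonneg hC.le
  obtain ⟨η, h0, h1, h2, h3⟩ : ∃ η : ℝ, 0 < η ∧ η ≤ 1 / 2 ∧ η ≤ (C - 1) / 7 ∧ η ≤ ε / (3 + ε) :=
    ⟨min (1 / 2) (min ((C - 1) / 7) (ε / (3 + ε))), by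
      have : 0 < C - 1 := by linarith
      positivity, min_le_left _ _,
      (min_le_right _ _).trans (min_le_left _ _), (min_le_right _ _).trans (min_le_right _ _)⟩
  rw [le_div_iff₀ (by linarith)] at h3
  refine ⟨η, h0, by linarith, ?_, ?_⟩
  · nlinarith [mul_pos h0 h0, mul_nonneg h0.le (mul_pos h0 h0).le]
  · nlinarith [mul_nonneg hl (show 0 ≤ ε - 2 * η by nlinarith [mul_pos h0 hε])]

theorem bp_card {V : Type} [Fintype V] [DecidableEq V] (E : Finset (V × V)) (p : V → Prop)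
    [DecidablePred p] :
    ((E.filter fun e => p e.2).card : ℝ) = ∑ b ∈ univ.filter p, (idg E b : ℝ) := by
  rw [card_eq_sum_card_fiberwise (f := Prod.snd) (t := univ.filter p)
    fun e he => by simpa using (mem_filter.1 he).2]
  push_cast
  refine sum_congr rfl fun b hb => ?_
  unfold idg
  congr 2
  ext e
  simp only [mem_filter]
  exact ⟨fun h => ⟨h.1.1, h.2⟩, fun h => ⟨⟨h.1, h.2 ▸ (mem_filter.1 hb).2⟩, h.2⟩⟩

theorem bp_total {V : Type} [DecidableEq V] {G : SimpleGraph V} {A : Finset V}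
    {E : Finset (V × V)} (hE : Arcs G A E) {M : ℝ} (h : ∀ a, (od E a : ℝ) ≤ M) :
    (E.card : ℝ) ≤ A.card * M := by
  rw [card_eq_sum_card_fiberwise (f := Prod.fst) (t := A) fun e he => (hE e he).2.1]
  push_cast
  exact (sum_le_card_nsmul _ _ M fun a _ => h a).trans (by simp)

theorem bip {C ε : ℝ} (hC : 1 < C) (hε : 0 < ε) :
    ∃ c : ℝ, 0 < c ∧ ∀ (V : Type) [Fintype V] [DecidableEq V] (G : SimpleGraph V) (A : Finset V)
      (E : Finset (V × V)) (κ lam ρ Δ : ℝ), Arcs G A E → A.Nonempty → 0 < κ → 1 ≤ lam → 2 ≤ ρ →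
      κ ≤ Δ → (∀ a, (od E a : ℝ) ≤ ρ * lam * κ) → (∀ b, (idg E b : ℝ) ≤ Δ) →
      (1 + ε) * lam * κ * A.card * (log (Δ / κ) + 1) / (1 + log C) ≤
        ((E.filter fun p => κ * exp (c * log ρ ^ 2) ≤ (idg E p.2 : ℝ)).card : ℝ) →
      Pos G κ (C * κ) := by
  classical
  obtain ⟨η, h0, h1, h2, h3⟩ := bp_eta hC hε
  obtain ⟨q, W0, q1, q2, w1, hr⟩ := riem hC.le h0
  obtain ⟨c, hc, hp⟩ := par hC.le h0 h1.le w1
  refine ⟨c, hc, fun V _ _ G A E κ lam ρ Δ hE hA hκ hlam hρ hΔ hod hid hbig => ?_⟩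
  obtain ⟨W, m, a1, a2, a3, a4⟩ := hp ρ hρ
  have hl : 0 ≤ log C := log_nonneg hC.le
  have hq : 0 < log q := log_pos q1
  have hq1 : log q ≤ 1 := (log_le_sub_one_of_pos (by linarith)).trans (by linarith)
  have hD : 1 ≤ Δ / κ := (one_le_div hκ).2 hΔ
  have hlD : 0 ≤ log (Δ / κ) := log_nonneg hD
  have hP : 1 ≤ (1 + η) ^ m := one_le_pow₀ (by linarith)
  have hAc : (0 : ℝ) < A.card := by exact_mod_cast hA.card_pos
  set J := ⌈log (Δ / κ) / log q⌉₊ with hJ
  have J1 : J * log q ≤ log (Δ / κ) + 1 := by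
    have := (Nat.ceil_lt_add_one (div_nonneg hlD hq.le)).le
    rw [← hJ] at this
    have h4 := mul_le_mul_of_nonneg_right this hq.le
    rw [add_mul, div_mul_cancel₀ _ hq.ne'] at h4
    linarith
  have J2 : Δ / κ ≤ q ^ J := by
    rw [← log_le_log_iff (by linarith) (by positivity), log_pow, ← div_le_iff₀ hq]
    exact Nat.le_ceil _
  let th : ℕ → ℝ := fun j => 1 / ((1 + η) ^ m * q ^ j)
  have th0 : ∀ j, 0 < th j := fun j => by positivity
  let g : ℕ → V → ℝ := fun j b => Gf C (min (th j * idg E b / κ) ((1 + η) * W))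
  have g0 : ∀ j b, 0 ≤ g j b / th j := fun j b => div_nonneg (Gf_nonneg hC.le _) (th0 j).le
  have key : ∀ b, κ * exp (c * log ρ ^ 2) ≤ (idg E b : ℝ) →
      (idg E b : ℝ) / κ * (1 + log C - η) ≤ log q * ∑ j ∈ range J, g j b / th j := by
    intro b hb
    have x1 : W ≤ (idg E b : ℝ) / κ / (1 + η) ^ m := by
      rw [le_div_iff₀ (by positivity), le_div_iff₀ hκ]
      nlinarith
    have x0 : 0 < (idg E b : ℝ) / κ := by
      have : 0 < κ * exp (c * log ρ ^ 2) := by positivity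
      exact div_pos (by linarith) hκ
    have := hr ((1 + η) * W) ((idg E b : ℝ) / κ / (1 + η) ^ m) J (by nlinarith) (by linarith) (by
      rw [div_le_one (by positivity)]
      exact ((div_le_self x0.le hP).trans (div_le_div_of_nonneg_right (hid b) hκ.le)).trans J2)
    refine (mul_le_mul_of_nonneg_left this x0.le).trans_eq ?_
    rw [mul_left_comm, mul_sum]
    congr 1
    refine sum_congr rfl fun j _ => ?_
    have e : (idg E b : ℝ) / κ / (1 + η) ^ m / q ^ j = th j * idg E b / κ := by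
      simp only [th]
      field_simp
    have x2 : (idg E b : ℝ) ≠ 0 := fun e => by simp [e] at x0
    have := (th0 j).ne'
    rw [e]
    simp only [g]
    field_simp
  have k2 : (1 + 2 * η) * lam * A.card * (log (Δ / κ) + 1) ≤
      log q * ∑ j ∈ range J, (∑ b, g j b) / th j := by
    rw [bp_card E fun b => κ * exp (c * log ρ ^ 2) ≤ (idg E b : ℝ),
      div_le_iff₀ (by linarith)] at hbig
    have s1 := sum_le_sum fun b (hb : b ∈ univ.filter fun b =>
      κ * exp (c * log ρ ^ 2) ≤ (idg E b : ℝ)) => key b (mem_filter.1 hb).2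
    rw [← sum_mul, ← sum_div, ← mul_sum] at s1
    have s2 : ∑ b ∈ univ.filter (fun b => κ * exp (c * log ρ ^ 2) ≤ (idg E b : ℝ)),
        ∑ j ∈ range J, g j b / th j ≤ ∑ j ∈ range J, (∑ b, g j b) / th j := by
      simp only [sum_div]
      rw [sum_comm]
      exact sum_le_sum fun j _ => sum_le_sum_of_subset_of_nonneg (filter_subset _ _)
        fun b _ _ => g0 j b
    refine le_trans ?_ (s1.trans (mul_le_mul_of_nonneg_left s2 hq.le))
    generalize ∑ b ∈ univ.filter (fun b => κ * exp (c * log ρ ^ 2) ≤ (idg E b : ℝ)),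
      (idg E b : ℝ) = e at hbig
    have z : 0 < lam * A.card * (log (Δ / κ) + 1) := by positivity
    rw [div_mul_eq_mul_div, le_div_iff₀ hκ]
    refine le_of_mul_le_mul_right ?_ (show 0 < 1 + log C by linarith)
    have t1 := mul_le_mul_of_nonneg_right hbig (show 0 ≤ 1 + log C - η by linarith)
    have t2 := mul_le_mul_of_nonneg_right h3 (mul_pos z hκ).le
    nlinarith
  have z : 0 < (1 + 2 * η) * lam * A.card := by positivity
  have hJ0 : (range J).Nonempty := by
    rw [nonempty_iff_ne_empty]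
    intro e
    rw [e, sum_empty, mul_zero] at k2
    nlinarith
  obtain ⟨j, -, hj⟩ := exists_le_of_sum_le (f := fun _ => (1 + 2 * η) * lam * A.card)
    (g := fun j => (∑ b, g j b) / th j) hJ0 (by
      rw [sum_const, card_range, nsmul_eq_mul]
      refine le_of_mul_le_mul_left ?_ hq
      nlinarith)
  rw [le_div_iff₀ (th0 j)] at hj
  set B := univ.filter fun b => 1 < th j * idg E b / κ with hB
  have i1 : ∀ b ∈ B, idg (E.filter fun p => p.2 ∈ B) b = idg E b := fun b hb => by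
    unfold idg
    congr 1
    ext e
    simp only [mem_filter]
    exact ⟨fun h => ⟨h.1.1, h.2⟩, fun h => ⟨⟨h.1, h.2 ▸ hb⟩, h.2⟩⟩
  refine boost G A B (E.filter fun p => p.2 ∈ B) (fun p hp => hE p (mem_filter.1 hp).1)
    (fun p hp => (mem_filter.1 hp).2) (m := m) h0 h1.le h2 (w1.trans a1) hκ hlam (by linarith)
    (th0 j) hA (fun a => le_trans ?_ (hod a)) ?_ a2 ?_ a3 ?_
  · exact_mod_cast card_le_card (filter_subset_filter _ (filter_subset _ _))
  · have b1 : (B.card : ℝ) ≤ ∑ b ∈ B, th j * idg E b / κ := by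
      simpa using card_nsmul_le_sum B _ 1 fun b hb => (mem_filter.1 hb).2.le
    rw [← sum_div, ← mul_sum, hB, ← bp_card] at b1
    have b2 : ((E.filter fun e => 1 < th j * idg E e.2 / κ).card : ℝ) ≤ E.card := by
      exact_mod_cast card_filter_le _ _
    refine b1.trans ?_
    rw [div_le_iff₀ hκ]
    have := mul_le_mul_of_nonneg_left (b2.trans (bp_total hE hod)) (th0 j).le
    linarith
  · have : th j * (1 + η) ^ m = 1 / q ^ j := by
      simp only [th]
      field_simp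
    rw [this, div_le_one (by positivity)]
    exact one_le_pow₀ q1.le
  · rw [sum_congr rfl fun b hb => by rw [i1 b hb]]
    have : ∑ b ∈ B, g j b = ∑ b, g j b := sum_subset (subset_univ _) fun b _ hb =>
      Gf_of_le_one ((min_le_left _ _).trans (by simpa [hB] using hb))
    exact le_trans (by linarith) this.ge

end Pool.Agent.Work.MP_78fef3_co.L
end

-- part Orient
section
namespace Pool.Agent.Work.MP_78fef3_co.L

open Finset Real

theorem or_erase {V : Type} [DecidableEq V] (G : SimpleGraph V) [DecidableRel G.Adj]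
    (U : Finset V) (v : V) :
    ((U ×ˢ U).filter fun p => G.Adj p.1 p.2).card ≤
      ((U.erase v ×ˢ U.erase v).filter fun p => G.Adj p.1 p.2).card +
        2 * (U.filter fun u => G.Adj v u).card := by
  have hsub : ((U ×ˢ U).filter fun p => G.Adj p.1 p.2) ⊆
      ((U.erase v ×ˢ U.erase v).filter fun p => G.Adj p.1 p.2) ∪
        (((U.filter fun u => G.Adj v u).image fun u => (v, u)) ∪
          ((U.filter fun u => G.Adj v u).image fun u => (u, v))) := by
    rintro ⟨a, b⟩ hp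
    obtain ⟨h1, h2⟩ := mem_filter.1 hp
    obtain ⟨ha, hb⟩ := mem_product.1 h1
    by_cases e1 : a = v
    · subst e1
      exact mem_union_right _ (mem_union_left _ (mem_image.2 ⟨b, mem_filter.2 ⟨hb, h2⟩, rfl⟩))
    · by_cases e2 : b = v
      · subst e2
        exact mem_union_right _ (mem_union_right _
          (mem_image.2 ⟨a, mem_filter.2 ⟨ha, h2.symm⟩, rfl⟩))
      · exact mem_union_left _ (mem_filter.2
          ⟨mem_product.2 ⟨mem_erase.2 ⟨e1, ha⟩, mem_erase.2 ⟨e2, hb⟩⟩, h2⟩)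
  have h1 := card_le_card hsub
  have h2 := card_union_le ((U.erase v ×ˢ U.erase v).filter fun p => G.Adj p.1 p.2)
    (((U.filter fun u => G.Adj v u).image fun u => (v, u)) ∪
      ((U.filter fun u => G.Adj v u).image fun u => (u, v)))
  have h3 := card_union_le ((U.filter fun u => G.Adj v u).image fun u => (v, u))
    ((U.filter fun u => G.Adj v u).image fun u => (u, v))
  have h4 : ((U.filter fun u => G.Adj v u).image fun u => (v, u)).card ≤ _ := card_image_le
  have h5 : ((U.filter fun u => G.Adj v u).image fun u => (u, v)).card ≤ _ := card_image_le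
  omega

theorem or_univ {V : Type} [Fintype V] [DecidableEq V] (G : SimpleGraph V) [DecidableRel G.Adj] :
    (((univ : Finset V) ×ˢ (univ : Finset V)).filter fun p => G.Adj p.1 p.2).card =
      2 * G.edgeSet.ncard := by
  rw [← G.coe_edgeFinset, Set.ncard_coe_finset, ← G.sum_degrees_eq_twice_card_edges,
    card_filter, sum_product]
  refine sum_congr rfl fun v _ => ?_
  rw [← card_filter, ← G.card_neighborFinset_eq_degree, G.neighborFinset_eq_filter]

theorem or_min {V : Type} [Fintype V] [DecidableEq V] [Nonempty V] (G : SimpleGraph V)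
    [DecidableRel G.Adj] {t : ℝ} (he : t * Fintype.card V ≤ (G.edgeSet.ncard : ℝ)) :
    ∃ U : Finset V, U.Nonempty ∧ ∀ v ∈ U, t ≤ ((U.filter fun u => G.Adj v u).card : ℝ) := by
  classical
  let S : Finset (Finset V) := univ.filter fun U => U.Nonempty ∧
    2 * t * U.card ≤ (((U ×ˢ U).filter fun p => G.Adj p.1 p.2).card : ℝ)
  have hS : S.Nonempty := by
    refine ⟨univ, mem_filter.2 ⟨mem_univ _, univ_nonempty, ?_⟩⟩
    rw [or_univ, card_univ]
    push_cast
    linarith
  obtain ⟨U, hU, hmin⟩ := exists_min_image S card hS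
  obtain ⟨hne, hU2⟩ := (mem_filter.1 hU).2
  refine ⟨U, hne, fun v hv => ?_⟩
  have h1 : (((U ×ˢ U).filter fun p => G.Adj p.1 p.2).card : ℝ) ≤
      ((U.erase v ×ˢ U.erase v).filter fun p => G.Adj p.1 p.2).card +
        2 * (U.filter fun u => G.Adj v u).card := by exact_mod_cast or_erase G U v
  have h2 : ((U.erase v).card : ℝ) + 1 = U.card := by exact_mod_cast card_erase_add_one hv
  have h3 : (((U.erase v ×ˢ U.erase v).filter fun p => G.Adj p.1 p.2).card : ℝ) ≤
      2 * t * (U.erase v).card := by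
    rcases (U.erase v).eq_empty_or_nonempty with h | h
    · rw [h]; simp
    · by_contra hc
      have h4 := hmin (U.erase v) (mem_filter.2 ⟨mem_univ _, h, (not_le.1 hc).le⟩)
      have h5 := card_erase_add_one hv
      omega
  rw [← h2] at hU2
  linarith

theorem orient {V : Type} [Fintype V] [DecidableEq V] [Nonempty V] (G : SimpleGraph V) {t : ℝ}
    (ht : 1 ≤ t) (he : t * Fintype.card V ≤ (G.edgeSet.ncard : ℝ)) :
    ∃ (U : Finset V) (E : Finset (V × V)), U.Nonempty ∧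
      (∀ p ∈ E, G.Adj p.1 p.2 ∧ p.1 ∈ U ∧ p.2 ∈ U) ∧ t * U.card ≤ (E.card : ℝ) ∧
        ∀ a, (od E a : ℝ) ≤ 2 * t := by
  classical
  obtain ⟨U, hne, hU⟩ := or_min G he
  have hex : ∀ a, ∃ N : Finset V, a ∈ U →
      N ⊆ U.filter (fun u => G.Adj a u) ∧ N.card = ⌈t⌉₊ := by
    intro a
    by_cases ha : a ∈ U
    · obtain ⟨N, h1, h2⟩ := exists_subset_card_eq (Nat.ceil_le.2 (hU a ha))
      exact ⟨N, fun _ => ⟨h1, h2⟩⟩
    · exact ⟨∅, fun h => absurd h ha⟩
  choose N hN using hex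
  let E : Finset (V × V) := univ.filter fun p => p.1 ∈ U ∧ p.2 ∈ N p.1
  have hod : ∀ a ∈ U, od E a = ⌈t⌉₊ := by
    intro a ha
    rw [← (hN a ha).2]
    have e : (E.filter fun p => p.1 = a) = (N a).image fun u => (a, u) := by
      ext ⟨x, y⟩
      simp only [E, mem_filter, mem_univ, true_and, mem_image, Prod.mk.injEq]
      constructor
      · rintro ⟨⟨-, h2⟩, rfl⟩
        exact ⟨y, h2, rfl, rfl⟩
      · rintro ⟨u, hu, rfl, rfl⟩
        exact ⟨⟨ha, hu⟩, rfl⟩
    rw [od, e, card_image_of_injective _ fun u u' h => (Prod.mk.inj h).2]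
  refine ⟨U, E, hne, fun p hp => ?_, ?_, fun a => ?_⟩
  · obtain ⟨h1, h2⟩ := (mem_filter.1 hp).2
    have h3 := mem_filter.1 ((hN _ h1).1 h2)
    exact ⟨h3.2, h1, h3.1⟩
  · have e : E.card = ∑ a ∈ U, od E a :=
      card_eq_sum_card_fiberwise (f := Prod.fst) fun p hp => (mem_filter.1 hp).2.1
    rw [e, sum_congr rfl hod, sum_const, smul_eq_mul, Nat.cast_mul, mul_comm]
    exact mul_le_mul_of_nonneg_left (Nat.le_ceil t) (Nat.cast_nonneg _)
  · by_cases ha : a ∈ U
    · rw [hod a ha]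
      have := Nat.ceil_lt_add_one (show 0 ≤ t by linarith)
      linarith
    · have e : (E.filter fun p => p.1 = a) = ∅ := by
        refine filter_eq_empty_iff.2 fun p hp h => ha ?_
        rw [← h]
        exact (mem_filter.1 hp).2.1
      rw [od, e, card_empty, Nat.cast_zero]
      linarith

theorem or_quarter {V : Type} [Fintype V] [DecidableEq V] {u v : V} (h : u ≠ v) :
    (univ : Finset (Finset V)).card ≤
      4 * ((univ : Finset (Finset V)).filter fun A => u ∈ A ∧ v ∉ A).card := by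
  refine card_le_mul_card_image_of_maps_to (f := fun A => insert u (A.erase v)) ?_ 4 ?_
  · intro A _
    refine mem_filter.2 ⟨mem_univ _, mem_insert_self _ _, ?_⟩
    simp [h.symm]
  · intro B _
    have hsub : ((univ : Finset (Finset V)).filter fun A => insert u (A.erase v) = B) ⊆
        {B, B.erase u, insert v B, insert v (B.erase u)} := by
      intro A hA
      have e := (mem_filter.1 hA).2
      subst e
      simp only [mem_insert, mem_singleton]
      by_cases h1 : u ∈ A <;> by_cases h2 : v ∈ A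
      · right; right; left
        ext x
        simp only [mem_insert, mem_erase]
        by_cases a1 : x = u <;> by_cases a2 : x = v <;> simp_all
      · left
        ext x
        simp only [mem_insert, mem_erase]
        by_cases a1 : x = u <;> by_cases a2 : x = v <;> simp_all
      · right; right; right
        ext x
        simp only [mem_insert, mem_erase]
        by_cases a1 : x = u <;> by_cases a2 : x = v <;> simp_all
      · right; left
        ext x
        simp only [mem_insert, mem_erase]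
        by_cases a1 : x = u <;> by_cases a2 : x = v <;> simp_all
    exact (card_le_card hsub).trans card_le_four

theorem cut {V : Type} [Fintype V] [DecidableEq V] (E : Finset (V × V))
    (hE : ∀ p ∈ E, p.1 ≠ p.2) :
    ∃ A : Finset V, E.card ≤ 4 * (E.filter fun p => p.1 ∈ A ∧ p.2 ∉ A).card := by
  have h : ∑ _A : Finset V, E.card ≤
      ∑ A : Finset V, 4 * (E.filter fun p => p.1 ∈ A ∧ p.2 ∉ A).card := by
    calc ∑ _A : Finset V, E.card = ∑ _p ∈ E, (univ : Finset (Finset V)).card := by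
          simp [mul_comm]
      _ ≤ ∑ p ∈ E, 4 * ((univ : Finset (Finset V)).filter fun A => p.1 ∈ A ∧ p.2 ∉ A).card :=
          sum_le_sum fun p hp => or_quarter (hE p hp)
      _ = ∑ A : Finset V, 4 * (E.filter fun p => p.1 ∈ A ∧ p.2 ∉ A).card := by
          rw [← mul_sum, ← mul_sum]
          congr 1
          simp only [card_filter]
          exact sum_comm
  obtain ⟨A, -, hA⟩ := exists_le_of_sum_le univ_nonempty h
  exact ⟨A, hA⟩

end Pool.Agent.Work.MP_78fef3_co.L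
end

-- part Red
section
namespace Pool.Agent.Work.MP_78fef3_co.L

open Finset Real

section
variable {V : Type} [DecidableEq V]

theorem re_od {E E' : Finset (V × V)} (h : E' ⊆ E) (a : V) : (od E' a : ℝ) ≤ od E a := by
  unfold od
  exact_mod_cast card_le_card (filter_subset_filter _ h)

theorem re_idg {E E' : Finset (V × V)} (h : E' ⊆ E) (a : V) : (idg E' a : ℝ) ≤ idg E a := by
  unfold idg
  exact_mod_cast card_le_card (filter_subset_filter _ h)

theorem re_idg_card [Fintype V] (E : Finset (V × V)) (b : V) :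
    (idg E b : ℝ) ≤ Fintype.card V := by
  unfold idg
  have : (E.filter fun p => p.2 = b).card ≤ (univ : Finset V).card := by
    refine card_le_card_of_injOn (fun p => p.1) (fun _ _ => by simp) ?_
    intro p hp q hq h
    have h1 := (mem_filter.1 (mem_coe.1 hp)).2
    have h2 := (mem_filter.1 (mem_coe.1 hq)).2
    exact Prod.ext h (h1.trans h2.symm)
  rw [card_univ] at this
  exact_mod_cast this

theorem re_big (E : Finset (V × V)) (S : Finset V) (hS : ∀ p ∈ E, p.2 ∈ S) {T : ℝ}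
    (hT : 0 ≤ T) :
    (E.card : ℝ) - T * S.card ≤ ((E.filter fun p => T ≤ (idg E p.2 : ℝ)).card : ℝ) := by
  have h1 := card_filter_add_card_filter_not (s := E) (fun p => T ≤ (idg E p.2 : ℝ))
  have h2 : (E.filter fun p => ¬ T ≤ (idg E p.2 : ℝ)).card =
      ∑ b ∈ S, ((E.filter fun p => ¬ T ≤ (idg E p.2 : ℝ)).filter fun p => p.2 = b).card :=
    card_eq_sum_card_fiberwise (fun p hp => mem_coe.2 (hS p (mem_filter.1 (mem_coe.1 hp)).1))
  have h3 : ((E.filter fun p => ¬ T ≤ (idg E p.2 : ℝ)).card : ℝ) ≤ T * S.card := by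
    rw [h2, Nat.cast_sum, mul_comm, ← nsmul_eq_mul]
    refine sum_le_card_nsmul _ _ _ fun b _ => ?_
    rcases ((E.filter fun p => ¬ T ≤ (idg E p.2 : ℝ)).filter fun p => p.2 = b).eq_empty_or_nonempty
      with h | ⟨p, hp⟩
    · rw [h]; simpa using hT
    · have hp1 := mem_filter.1 hp
      have hp2 := (mem_filter.1 hp1.1).2
      rw [hp1.2] at hp2
      exact (re_idg (filter_subset _ E) b).trans (not_le.1 hp2).le
  have h4 : ((E.filter fun p => T ≤ (idg E p.2 : ℝ)).card : ℝ) +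
      ((E.filter fun p => ¬ T ≤ (idg E p.2 : ℝ)).card : ℝ) = E.card := by exact_mod_cast h1
  linarith

theorem re_tail (E : Finset (V × V)) (S : Finset V) {T : ℝ} (h : ∀ a, (od E a : ℝ) ≤ T) :
    ((E.filter fun p => p.1 ∈ S).card : ℝ) ≤ T * S.card := by
  have h2 : (E.filter fun p => p.1 ∈ S).card =
      ∑ b ∈ S, ((E.filter fun p => p.1 ∈ S).filter fun p => p.1 = b).card :=
    card_eq_sum_card_fiberwise (fun p hp => mem_coe.2 (mem_filter.1 (mem_coe.1 hp)).2)
  rw [h2, Nat.cast_sum, mul_comm, ← nsmul_eq_mul]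
  exact sum_le_card_nsmul _ _ _ fun b _ => (re_od (filter_subset _ E) b).trans (h b)

theorem re_head (E : Finset (V × V)) (S : Finset V) {T : ℝ} (h : ∀ b ∈ S, T ≤ (idg E b : ℝ)) :
    T * S.card ≤ (E.card : ℝ) := by
  have h2 : ∑ b ∈ S, idg E b = (E.filter fun p => p.2 ∈ S).card := by
    unfold idg
    exact sum_card_fiberwise_eq_card_filter _ _ _
  have h3 : (E.filter fun p => p.2 ∈ S).card ≤ E.card := card_filter_le _ _
  have h4 : T * S.card ≤ ∑ b ∈ S, (idg E b : ℝ) := by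
    rw [mul_comm, ← nsmul_eq_mul]
    exact card_nsmul_le_sum _ _ _ h
  rw [← Nat.cast_sum, h2] at h4
  exact h4.trans (by exact_mod_cast h3)

theorem re_split (E : Finset (V × V)) (S : Finset V) :
    (E.card : ℝ) ≤ ((E.filter fun p => p.1 ∉ S ∧ p.2 ∈ S).card : ℝ) +
      ((E.filter fun p => p.2 ∉ S).card : ℝ) + ((E.filter fun p => p.1 ∈ S).card : ℝ) := by
  have h : E ⊆ ((E.filter fun p => p.1 ∉ S ∧ p.2 ∈ S) ∪ (E.filter fun p => p.2 ∉ S)) ∪
      (E.filter fun p => p.1 ∈ S) := by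
    intro p hp
    simp only [mem_union, mem_filter]
    tauto
  have h1 := (card_le_card h).trans ((card_union_le _ _).trans
    (Nat.add_le_add_right (card_union_le _ _) _))
  exact_mod_cast h1

end

theorem re_main {C ε : ℝ} (hC : 1 < C) (hε : 0 < ε) (hε1 : ε ≤ 1) :
    ∃ L0 : ℝ, 0 ≤ L0 ∧ ∀ (V : Type) [Fintype V] (G : SimpleGraph V) (κ : ℝ), 1 ≤ κ →
      L0 ≤ log (Fintype.card V / κ) →
      (1 + ε) * κ * Fintype.card V * log (Fintype.card V / κ) / (1 + log C) ≤
        (G.edgeSet.ncard : ℝ) → Pos G κ (C * κ) := by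
  obtain ⟨c, hc, hb⟩ := bip hC (show 0 < ε / 3 by positivity)
  obtain ⟨e, he⟩ : ∃ e : ℝ, e = ε / 12 := ⟨_, rfl⟩
  have he0 : 0 < e := by rw [he]; positivity
  have he1 : e ≤ 1 / 12 := by rw [he]; linarith
  obtain ⟨L1, hL1⟩ := asy hc he0 (by linarith) hC.le
  have hD : 1 ≤ 1 + log C := by linarith [log_nonneg hC.le]
  refine ⟨max (max L1 (3 / ε + 1)) (1 + log C), le_max_of_le_right (by linarith), ?_⟩
  intro V _ G κ hκ hL hedge
  classical
  have hκ0 : 0 < κ := by linarith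
  obtain ⟨L, hLd⟩ : ∃ L, L = log (Fintype.card V / κ) := ⟨_, rfl⟩
  rw [← hLd] at hL hedge
  have hLa : L1 ≤ L := (le_max_left _ _).trans ((le_max_left _ _).trans hL)
  have hLb : 3 / ε + 1 ≤ L := (le_max_right _ _).trans ((le_max_left _ _).trans hL)
  have hLc : 1 + log C ≤ L := (le_max_right _ _).trans hL
  obtain ⟨D, hDd⟩ : ∃ D, D = 1 + log C := ⟨_, rfl⟩
  rw [← hDd] at hD hLc hedge hb hL1
  have hD0 : 0 < D := by linarith
  have hL1' : 1 ≤ L := hD.trans hLc
  have hn : κ ≤ Fintype.card V := by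
    by_contra h
    have h1 : (Fintype.card V : ℝ) / κ ≤ 1 := (div_le_one hκ0).2 (not_le.1 h).le
    have h2 := log_nonpos (by positivity) h1
    linarith
  have : Nonempty V := by
    have : (0 : ℝ) < Fintype.card V := by linarith
    exact Fintype.card_pos_iff.1 (by exact_mod_cast this)
  obtain ⟨s, hs⟩ : ∃ s, s = κ * L / D := ⟨_, rfl⟩
  have hsD : s * D = κ * L := by rw [hs]; field_simp
  have hs1 : 1 ≤ s := by
    rw [hs, le_div_iff₀ hD0]; nlinarith
  have hs2 : s ≤ κ * L := by nlinarith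
  obtain ⟨t, ht⟩ : ∃ t, t = (1 + ε) * s := ⟨_, rfl⟩
  have hst : s ≤ t := by rw [ht]; nlinarith
  have ht1 : 1 ≤ t := hs1.trans hst
  have ht2 : t ≤ 2 * (κ * L) := by rw [ht]; nlinarith
  obtain ⟨U, E, hU, hE, htE, hod⟩ := orient G ht1
    (le_trans (le_of_eq (by rw [ht, hs]; ring)) hedge)
  have hU1 : (1 : ℝ) ≤ U.card := by exact_mod_cast card_pos.2 hU
  have hE0 : (0 : ℝ) < E.card := by nlinarith
  obtain ⟨M, hM⟩ : ∃ M, M = exp (c * log (4 * L) ^ 2) := ⟨_, rfl⟩
  have hM0 : 0 < M := by rw [hM]; exact exp_pos _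
  obtain ⟨M', hM'⟩ : ∃ M', M' = (M + 4 * L) / e := ⟨_, rfl⟩
  obtain ⟨hA1, hA2, hA3⟩ := hL1 L hLa M' (by rw [hM', hM])
  have hMe : e * M' = M + 4 * L := by rw [hM']; field_simp
  obtain ⟨H, hH⟩ : ∃ H : Finset V, H = U.filter fun b => κ * M' ≤ (idg E b : ℝ) := ⟨_, rfl⟩
  have hH1 : κ * M' * H.card ≤ (E.card : ℝ) :=
    re_head E H fun b hb => by rw [hH] at hb; exact (mem_filter.1 hb).2
  have hH0 : (0 : ℝ) ≤ H.card := Nat.cast_nonneg _
  by_cases hcase : ((E.filter fun p => p.2 ∉ H).card : ℝ) ≤ e * E.card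
  · have hsub : (E.filter fun p => p.1 ∉ H ∧ p.2 ∈ H) ⊆ E := filter_subset _ _
    have h1 := re_split E H
    have h2 := re_tail E H (T := 4 * L * 1 * κ) fun a => (hod a).trans (by linarith)
    have h3 := re_big (E.filter fun p => p.1 ∉ H ∧ p.2 ∈ H) H
      (fun p hp => (mem_filter.1 hp).2.2) (T := κ * M) (by positivity)
    have h4 : (κ * M + 4 * L * 1 * κ) * H.card ≤ e * E.card := by
      have : (κ * M + 4 * L * 1 * κ) * H.card = e * (κ * M' * H.card) := by
        have : κ * M + 4 * L * 1 * κ = κ * (e * M') := by rw [hMe]; ring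
        rw [this]; ring
      rw [this]
      exact mul_le_mul_of_nonneg_left hH1 he0.le
    have h5 : (1 - 2 * e) * E.card ≤ (((E.filter fun p => p.1 ∉ H ∧ p.2 ∈ H).filter fun p =>
        κ * M ≤ (idg (E.filter fun p => p.1 ∉ H ∧ p.2 ∈ H) p.2 : ℝ)).card : ℝ) := by
      linarith
    have harc : Arcs G (U \ H) (E.filter fun p => p.1 ∉ H ∧ p.2 ∈ H) := by
      intro p hp
      obtain ⟨hp1, hp2, hp3⟩ := mem_filter.1 hp
      exact ⟨(hE p hp1).1, mem_sdiff.2 ⟨(hE p hp1).2.1, hp2⟩, fun h => (mem_sdiff.1 h).2 hp3⟩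
    have hne : (U \ H).Nonempty := by
      have : (0 : ℝ) < (((E.filter fun p => p.1 ∉ H ∧ p.2 ∈ H).filter fun p =>
        κ * M ≤ (idg (E.filter fun p => p.1 ∉ H ∧ p.2 ∈ H) p.2 : ℝ)).card : ℝ) :=
        lt_of_lt_of_le (mul_pos (by linarith) hE0) h5
      obtain ⟨p, hp⟩ := card_pos.1 (by exact_mod_cast this)
      exact ⟨p.1, (harc p (mem_filter.1 hp).1).2.1⟩
    refine hb V G (U \ H) _ κ 1 (4 * L) (Fintype.card V) harc hne hκ0 le_rfl (by linarith) hn
      (fun a => (re_od hsub a).trans ((hod a).trans (by linarith))) (re_idg_card _) ?_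
    rw [← hLd, ← hM]
    refine le_trans ?_ h5
    have h6 : ((U \ H).card : ℝ) ≤ U.card := by exact_mod_cast card_le_card sdiff_subset
    have h7 : (1 + ε / 3) * (L + 1) ≤ (1 - 2 * e) * (1 + ε) * L := by
      have : 3 + ε ≤ ε * L := by
        have h := mul_le_mul_of_nonneg_left hLb hε.le
        have h' : ε * (3 / ε + 1) = 3 + ε := by field_simp
        linarith
      have h' : 0 ≤ ε * (1 - ε) * L := by
        have : 0 ≤ 1 - ε := by linarith
        positivity
      rw [he]; nlinarith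
    calc (1 + ε / 3) * 1 * κ * ((U \ H).card : ℝ) * (L + 1) / D
        = (1 + ε / 3) * (L + 1) * (κ / D) * ((U \ H).card : ℝ) := by ring
      _ ≤ (1 - 2 * e) * (1 + ε) * L * (κ / D) * U.card := by
          have : 0 ≤ 1 - 2 * e := by linarith
          gcongr
      _ = (1 - 2 * e) * (t * U.card) := by rw [ht, hs]; ring
      _ ≤ (1 - 2 * e) * E.card := mul_le_mul_of_nonneg_left htE (by linarith)
  · have hcase' := not_le.1 hcase
    obtain ⟨A0, hA0⟩ := cut (E.filter fun p => p.2 ∉ H)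
      fun p hp => (hE p (mem_filter.1 hp).1).1.ne
    obtain ⟨F, hF⟩ : ∃ F, F = (E.filter fun p => p.2 ∉ H).filter fun p => p.1 ∈ A0 ∧ p.2 ∉ A0 :=
      ⟨_, rfl⟩
    rw [← hF] at hA0
    have hFm : ∀ p ∈ F, p ∈ E ∧ p.2 ∉ H ∧ p.1 ∈ A0 ∧ p.2 ∉ A0 := by
      intro p hp
      rw [hF] at hp
      obtain ⟨h1, h2⟩ := mem_filter.1 hp
      exact ⟨(mem_filter.1 h1).1, (mem_filter.1 h1).2, h2⟩
    have hsub : F ⊆ E := fun p hp => (hFm p hp).1
    have h1 : e * E.card < 4 * (F.card : ℝ) := hcase'.trans_le (by exact_mod_cast hA0)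
    have harc : Arcs G (A0 ∩ U) F := fun p hp =>
      ⟨(hE p (hsub hp)).1, mem_inter.2 ⟨(hFm p hp).2.2.1, (hE p (hsub hp)).2.1⟩,
        fun h => (hFm p hp).2.2.2 (mem_inter.1 h).1⟩
    have hne : (A0 ∩ U).Nonempty := by
      have : (0 : ℝ) < F.card := by nlinarith
      obtain ⟨p, hp⟩ := card_pos.1 (by exact_mod_cast this)
      exact ⟨p.1, (harc p hp).2.1⟩
    have hl0 : 0 ≤ log M' := log_nonneg hA1
    obtain ⟨g, hg⟩ : ∃ g, g = log M' + 1 := ⟨_, rfl⟩
    rw [← hg] at hA2 hA3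
    have hg1 : 1 ≤ g := by linarith
    have hg0 : 0 < g := by linarith
    have hlam : 1 ≤ e * t / (16 * κ * g) := by
      rw [le_div_iff₀ (by positivity)]
      have h2 : 16 * κ * g * D ≤ e * s * D := by
        have := mul_le_mul_of_nonneg_left hA2 hκ0.le
        have h' : e * s * D = κ * (e * L) := by rw [mul_assoc, hsD]; ring
        linarith
      have h3 := le_of_mul_le_mul_right h2 hD0
      have := mul_le_mul_of_nonneg_left hst he0.le
      linarith
    have hidg : ∀ b, (idg F b : ℝ) ≤ κ * M' := by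
      intro b
      rcases (F.filter fun p => p.2 = b).eq_empty_or_nonempty with h | ⟨p, hp⟩
      · unfold idg
        rw [h, card_empty, Nat.cast_zero]
        positivity
      · obtain ⟨hp1, hp2⟩ := mem_filter.1 hp
        have h2 := (hFm p hp1).2.1
        rw [hH, mem_filter, hp2] at h2
        have h3 : b ∈ U := hp2 ▸ (hE p (hsub hp1)).2.2
        exact (re_idg hsub b).trans (not_le.1 fun h => h2 ⟨h3, h⟩).le
    refine hb V G (A0 ∩ U) F κ (e * t / (16 * κ * g)) (32 * g / e) (κ * M') harc hne hκ0 hlam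
      (by rw [le_div_iff₀ he0]; linarith) (by nlinarith)
      (fun a => (re_od hsub a).trans ((hod a).trans (le_of_eq (by field_simp; ring)))) hidg ?_
    obtain ⟨X, hX⟩ : ∃ X, X = exp (c * log (32 * g / e) ^ 2) := ⟨_, rfl⟩
    rw [← hX] at hA3 ⊢
    have hX0 : 0 < X := by rw [hX]; exact exp_pos _
    rw [mul_div_cancel_left₀ _ hκ0.ne', ← hg]
    refine le_trans ?_ (re_big F U (fun p hp => (hE p (hsub hp)).2.2) (by positivity))
    have h2 : 8 * (κ * X) ≤ e * t := by
      have h2 : 8 * (κ * X) * D ≤ e * s * D := by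
        have := mul_le_mul_of_nonneg_left hA3 hκ0.le
        have h' : e * s * D = κ * (e * L) := by rw [mul_assoc, hsD]; ring
        linarith
      have h3 := le_of_mul_le_mul_right h2 hD0
      have := mul_le_mul_of_nonneg_left hst he0.le
      linarith
    have h3 : 8 * (κ * X) * U.card ≤ e * t * U.card :=
      mul_le_mul_of_nonneg_right h2 (by linarith)
    have h4 : e * (t * U.card) ≤ e * E.card := mul_le_mul_of_nonneg_left htE he0.le
    have h6 : ((A0 ∩ U).card : ℝ) ≤ U.card := by exact_mod_cast card_le_card inter_subset_right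
    have ht0 : 0 < t := by linarith
    calc (1 + ε / 3) * (e * t / (16 * κ * g)) * κ * ((A0 ∩ U).card : ℝ) * g / D
        = (1 + ε / 3) * (e * t / 16) * ((A0 ∩ U).card : ℝ) / D := by field_simp
      _ ≤ 2 * (e * t / 16) * U.card / 1 := by
          gcongr
          linarith
      _ ≤ _ := by linarith

theorem red {C ε : ℝ} (hC : 1 < C) (hε : 0 < ε) :
    ∃ L0 : ℝ, ∀ (V : Type) [Fintype V] (G : SimpleGraph V) (κ : ℝ), 1 ≤ κ →
      L0 ≤ log (Fintype.card V / κ) →
      (1 + ε) * κ * Fintype.card V * log (Fintype.card V / κ) / (1 + log C) ≤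
        (G.edgeSet.ncard : ℝ) → Pos G κ (C * κ) := by
  obtain ⟨L0, h0, h⟩ := re_main hC (lt_min hε one_pos) (min_le_right ε 1)
  refine ⟨L0, fun V _ G κ hκ hL he => h V G κ hκ hL (le_trans ?_ he)⟩
  have h1 : 0 ≤ log (Fintype.card V / κ) := h0.trans hL
  have h2 : 0 ≤ 1 + log C := by linarith [log_nonneg hC.le]
  have h3 : 0 ≤ κ := by linarith
  gcongr
  exact min_le_left _ _

end Pool.Agent.Work.MP_78fef3_co.L
end

-- part Up
section
namespace Pool.Agent.Work.MP_78fef3_co.L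

open Finset Real

theorem up_eta {C ε : ℝ} (hC : 1 < C) (hε : 0 < ε) :
    ∃ η : ℝ, 0 < η ∧ η < 1 ∧ 1 < C * (1 - η) ^ 2 / (1 + η) ^ 4 ∧
      (1 + ε / 2) * ((1 + η) / (1 - η) ^ 2) * (1 + log C) <
        (1 + ε) * (1 + log (C * (1 - η) ^ 2 / (1 + η) ^ 4)) := by
  have hL : 0 < log C := log_pos hC
  have c1 : ContinuousAt (fun η : ℝ => C * (1 - η) ^ 2 / (1 + η) ^ 4) 0 :=
    ContinuousAt.div (by fun_prop) (by fun_prop) (by norm_num)
  have c2 : ContinuousAt (fun η : ℝ => (1 + ε / 2) * ((1 + η) / (1 - η) ^ 2) * (1 + log C)) 0 :=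
    (continuousAt_const.mul (ContinuousAt.div (by fun_prop) (by fun_prop) (by norm_num))).mul
      continuousAt_const
  have c3 : ContinuousAt (fun η : ℝ => (1 + ε) * (1 + log (C * (1 - η) ^ 2 / (1 + η) ^ 4))) 0 :=
    continuousAt_const.mul (continuousAt_const.add (c1.log (by norm_num; linarith)))
  have e1 := continuousAt_const.eventually_lt c1 (show (1 : ℝ) < _ by norm_num; exact hC)
  have e2 := c2.eventually_lt c3 (by norm_num; nlinarith)
  have e3 : ∀ᶠ η : ℝ in nhds 0, η < 1 := eventually_lt_nhds one_pos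
  obtain ⟨η, h, h0⟩ := (((e1.and (e2.and e3)).filter_mono
    (nhdsWithin_le_nhds (s := Set.Ioi (0 : ℝ)))).and self_mem_nhdsWithin).exists
  exact ⟨η, h0, h.2.2, h.1, h.2.1⟩

theorem upper {C ε : ℝ} (hC : 1 < C) (hε : 0 < ε) :
    ∃ K : ℝ, ∀ n k : ℕ, 1 ≤ k → K * log n ≤ k → K * k ≤ n → ∀ G : SimpleGraph (Fin n),
      (1 + ε) * k * n * log (n / k) / (1 + log C) ≤ (G.edgeSet.ncard : ℝ) →
      ∃ H : G.Subgraph, H.verts.Nonempty ∧
        ∀ x ∈ H.verts, k < (H.neighborSet x).ncard ∧ ((H.neighborSet x).ncard : ℝ) < C * k := by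
  obtain ⟨η, h0, h1, hC', hF⟩ := up_eta hC hε
  obtain ⟨C', eC⟩ : ∃ C', C' = C * (1 - η) ^ 2 / (1 + η) ^ 4 := ⟨_, rfl⟩
  obtain ⟨r, er⟩ : ∃ r, r = (1 + η) / (1 - η) ^ 2 := ⟨_, rfl⟩
  rw [← eC] at hC' hF
  rw [← er] at hF
  have h2 : 0 < 1 - η := by linarith
  have hr : 1 ≤ r := by
    rw [er, le_div_iff₀ (by positivity)]
    nlinarith
  obtain ⟨L0, hred⟩ := red hC' (half_pos hε)
  have p1 : 0 < 8 / (η ^ 2 * (1 - η)) := by positivity
  have p2 : 0 < r * exp (max L0 0) := by positivity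
  refine ⟨3 + 8 / (η ^ 2 * (1 - η)) + r * exp (max L0 0), fun n k hk hK1 hK2 G hG => ?_⟩
  have k1 : (1 : ℝ) ≤ k := by exact_mod_cast hk
  have n3 : (3 : ℝ) ≤ n := by nlinarith
  have hκ : 1 ≤ k * r := by nlinarith
  have hlog : max L0 0 ≤ log (n / (k * r)) := by
    rw [le_log_iff_exp_le (by positivity), le_div_iff₀ (by positivity)]
    nlinarith
  have hle : log (n / (k * r)) ≤ log (n / k) :=
    log_le_log (by positivity) (div_le_div_of_nonneg_left (by positivity) (by positivity)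
      (by nlinarith))
  have l0 : 0 ≤ log (n / (k * r)) := (le_max_right _ _).trans hlog
  have lC : 0 < 1 + log C := by have := log_pos hC; linarith
  have lC' : 0 < 1 + log C' := by have := log_pos hC'; linarith
  have hP := hred (Fin n) G (k * r) hκ
    (by rw [Fintype.card_fin]; exact (le_max_left _ _).trans hlog) (by
      rw [Fintype.card_fin]
      refine le_trans ?_ hG
      rw [div_le_div_iff₀ lC' lC]
      calc (1 + ε / 2) * (k * r) * n * log (n / (k * r)) * (1 + log C)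
          = ((1 + ε / 2) * r * (1 + log C)) * (k * n * log (n / (k * r))) := by ring
        _ ≤ ((1 + ε) * (1 + log C')) * (k * n * log (n / k)) :=
          mul_le_mul hF.le (mul_le_mul_of_nonneg_left hle (by positivity)) (by positivity)
            (by positivity)
        _ = _ := by ring)
  have hS := ent G (by linarith) (by nlinarith) hP
  obtain ⟨H, hH, hd⟩ := round G h0 h1 (by linarith) hS (by
    rw [Fintype.card_fin]
    have ln : 0 < log n := log_pos (by linarith)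
    have a1 : 8 / (η ^ 2 * (1 - η)) * log n ≤ k * r := by nlinarith
    have a2 : 2 * log n ≤ η ^ 2 * ((1 - η) * (k * r)) / 4 := by
      rw [div_mul_eq_mul_div, div_le_iff₀ (by positivity)] at a1
      linarith
    have a3 : exp (-(η ^ 2 * ((1 - η) * (k * r)) / 4)) ≤ ((n : ℝ) * n)⁻¹ := by
      refine (exp_le_exp.2 (neg_le_neg a2)).trans (le_of_eq ?_)
      rw [exp_neg, two_mul, exp_add, exp_log (by linarith)]
    calc 2 * (n : ℝ) * exp (-(η ^ 2 * ((1 - η) * (k * r)) / 4)) ≤ 2 * n * ((n : ℝ) * n)⁻¹ :=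
          mul_le_mul_of_nonneg_left a3 (by positivity)
      _ = 2 / n := by field_simp
      _ < 1 := by rw [div_lt_one (by linarith)]; linarith)
  refine ⟨H, hH, fun x hx => ⟨?_, (hd x hx).2.trans_lt ?_⟩⟩
  · have a := (hd x hx).1
    have b : (1 - η) ^ 2 * (k * r) = (1 + η) * k := by rw [er]; field_simp
    have c : (k : ℝ) < ((H.neighborSet x).ncard : ℝ) := by nlinarith
    exact_mod_cast c
  · have b : (1 + η) ^ 2 * (C' * (k * r)) = C * k / (1 + η) := by rw [er, eC]; field_simp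
    rw [b]
    exact div_lt_self (by positivity) (by linarith)

end Pool.Agent.Work.MP_78fef3_co.L
end
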